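import Pool.Agent.R868.AEC.Defs

set_option autoImplicit false

open MvPolynomial Module
open scoped LinearAlgebra.Projectivization Topology

namespace Pool.Agent.R868.AEC

variable {ι : Type}

lemma IsCoord.ne_zero {x : PS ι} {v : ι → ℂ} (h : IsCoord x v) : v ≠ 0 := h.1

lemma isCoord_mk {v : ι → ℂ} (h : v ≠ 0) : IsCoord (Projectivization.mk ℂ v h) v := ⟨h, rfl⟩

lemma isCoord_rep (x : PS ι) : IsCoord x x.rep := ⟨x.rep_nonzero, x.mk_rep.symm⟩

lemma IsCoord.smul_iff {x : PS ι} {v w : ι → ℂ} (h : IsCoord x v) :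
    IsCoord x w ↔ ∃ c : ℂ, c ≠ 0 ∧ w = c • v := by
  obtain ⟨hv, rfl⟩ := h
  constructor
  · rintro ⟨hw, h⟩
    rw [Projectivization.mk_eq_mk_iff] at h
    obtain ⟨a, ha⟩ := h
    refine ⟨(a⁻¹ : ℂˣ), Units.ne_zero _, ?_⟩
    rw [← ha]
    ext i
    simp [Units.smul_def]
  · rintro ⟨c, hc, rfl⟩
    refine ⟨smul_ne_zero hc hv, ?_⟩
    rw [Projectivization.mk_eq_mk_iff]
    refine ⟨(Units.mk0 c hc)⁻¹, ?_⟩
    ext i
    simp [Units.smul_def, hc]

lemma IsCoord.unique {x y : PS ι} {v : ι → ℂ} (h : IsCoord x v) (h' : IsCoord y v) : x = y := by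
  obtain ⟨_, rfl⟩ := h
  obtain ⟨_, rfl⟩ := h'
  rfl

lemma IsCoord.eq_iff {x y : PS ι} {v w : ι → ℂ} (h : IsCoord x v) (h' : IsCoord y w) :
    x = y ↔ ∃ c : ℂ, c ≠ 0 ∧ w = c • v := by
  constructor
  · rintro rfl
    exact h.smul_iff.1 h'
  · intro hc
    exact (h.smul_iff.2 hc).unique h'

/-- change of frames -/
lemma span_pair_eq {v w : ι → ℂ} {a b c : ℂ} (ha : a ≠ 0) (hb : b ≠ 0) :
    Submodule.span ℂ {a • v, b • w + c • v} = Submodule.span ℂ {v, w} := by
  apply le_antisymm
  · rw [Submodule.span_le]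
    rintro x (rfl | rfl)
    · exact Submodule.smul_mem _ _ (Submodule.subset_span (by simp))
    · exact Submodule.add_mem _ (Submodule.smul_mem _ _ (Submodule.subset_span (by simp)))
        (Submodule.smul_mem _ _ (Submodule.subset_span (by simp)))
  · rw [Submodule.span_le]
    have h1 : v ∈ Submodule.span ℂ {a • v, b • w + c • v} := by
      have : v = a⁻¹ • (a • v) := by rw [smul_smul, inv_mul_cancel₀ ha, one_smul]
      rw [this]
      exact Submodule.smul_mem _ _ (Submodule.subset_span (by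
        rw [← this]; simp))
    rintro x (rfl | rfl)
    · exact h1
    · have h2 : b • x + c • v ∈ Submodule.span ℂ {a • v, b • x + c • v} :=
        Submodule.subset_span (by simp)
      have h3 := Submodule.smul_mem _ b⁻¹ (Submodule.sub_mem _ h2 (Submodule.smul_mem _ c h1))
      rwa [add_sub_cancel_right, smul_smul, inv_mul_cancel₀ hb, one_smul] at h3

lemma linInd_change {v w : ι → ℂ} {a b c : ℂ} (ha : a ≠ 0) (hb : b ≠ 0)
    (h : LinearIndependent ℂ ![v, w]) : LinearIndependent ℂ ![a • v, b • w + c • v] := by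
  rw [LinearIndependent.pair_iff] at h ⊢
  intro s t hst
  have h1 : (s * a + t * c) • v + (t * b) • w = 0 := by
    rw [← hst]; simp only [smul_add, smul_smul, add_smul]; abel
  obtain ⟨h2, h3⟩ := h _ _ h1
  have ht : t = 0 := by
    rcases mul_eq_zero.1 h3 with h | h
    · exact h
    · exact absurd h hb
  subst ht
  simp only [zero_mul, add_zero] at h2
  rcases mul_eq_zero.1 h2 with h | h
  · exact ⟨h, rfl⟩
  · exact absurd h ha

lemma IsFrame.change {p : PS ι × Submodule ℂ (ι → ℂ)} {v w : ι → ℂ} {a b c : ℂ} (ha : a ≠ 0)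
    (hb : b ≠ 0) (h : IsFrame p v w) : IsFrame p (a • v) (b • w + c • v) :=
  ⟨linInd_change ha hb h.1, h.2.1.smul_iff.2 ⟨a, ha, rfl⟩, by rw [span_pair_eq ha hb]; exact h.2.2⟩

/-- two frames of the same direction differ by a change of frames -/
lemma IsFrame.exists {p : PS ι × Submodule ℂ (ι → ℂ)} {v w v' w' : ι → ℂ} (h : IsFrame p v w)
    (h' : IsFrame p v' w') : ∃ a b c : ℂ, a ≠ 0 ∧ b ≠ 0 ∧ v' = a • v ∧ w' = b • w + c • v := by
  obtain ⟨a, ha, hv⟩ := h.2.1.smul_iff.1 h'.2.1
  have hw : w' ∈ Submodule.span ℂ {v, w} := by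
    rw [← h.2.2, h'.2.2]
    exact Submodule.subset_span (by simp)
  rw [Submodule.mem_span_pair] at hw
  obtain ⟨c, b, hcb⟩ := hw
  refine ⟨a, b, c, ha, ?_, hv, by rw [← hcb]; abel⟩
  rintro rfl
  have h1 := h'.1
  rw [LinearIndependent.pair_iff] at h1
  have := h1 (-c) a (by rw [hv, ← hcb, smul_smul]; simp [smul_smul, mul_comm])
  exact ha this.2

/-- uniqueness of the direction of a frame -/
lemma IsFrame.unique {p p' : PS ι × Submodule ℂ (ι → ℂ)} {v w : ι → ℂ} (h : IsFrame p v w)
    (h' : IsFrame p' v w) : p = p' :=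
  Prod.ext (h.2.1.unique h'.2.1) (by rw [h.2.2, h'.2.2])

lemma exists_isFrame {v w : ι → ℂ} (h : LinearIndependent ℂ ![v, w]) : ∃ p, IsFrame p v w := by
  have hv : v ≠ 0 := by simpa using h.ne_zero 0
  exact ⟨(Projectivization.mk ℂ v hv, Submodule.span ℂ {v, w}), h, isCoord_mk hv, rfl⟩

/-- minors -/
lemma linInd_iff_minor {v w : ι → ℂ} :
    LinearIndependent ℂ ![v, w] ↔ ∃ i j, v i * w j - v j * w i ≠ 0 := by
  constructor
  · intro h
    by_contra hc
    push Not at hc
    have hv : v ≠ 0 := by simpa using h.ne_zero 0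
    obtain ⟨i, hi⟩ := Function.ne_iff.1 hv
    rw [LinearIndependent.pair_iff] at h
    have := h (w i) (-v i) (by
      ext j
      simp only [Pi.add_apply, Pi.smul_apply, smul_eq_mul, Pi.zero_apply]
      linear_combination (-1 : ℂ) * hc i j)
    exact hi (by simpa using this.2)
  · rintro ⟨i, j, hij⟩
    rw [LinearIndependent.pair_iff]
    intro s t hst
    have h1 := congrFun hst i
    have h2 := congrFun hst j
    simp only [Pi.add_apply, Pi.smul_apply, smul_eq_mul, Pi.zero_apply] at h1 h2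
    constructor
    · have : s * (v i * w j - v j * w i) = 0 := by linear_combination w j * h1 - w i * h2
      exact (mul_eq_zero.1 this).resolve_right hij
    · have : t * (v i * w j - v j * w i) = 0 := by linear_combination v i * h2 - v j * h1
      exact (mul_eq_zero.1 this).resolve_right hij

end Pool.Agent.R868.AEC
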