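import Pool.Agent.R868.AEC.Basic

set_option autoImplicit false

open MvPolynomial Module Filter
open scoped LinearAlgebra.Projectivization Topology

namespace Pool.Agent.R868.AEC

variable {ι : Type} [Fintype ι]

/-- If all directions in `D` belong to a compact family, then so do those in the closure. -/
lemma closure_family {κ : Type} [TopologicalSpace κ] {K : Set κ}
    (hK : IsCompact K) {f₁ f₂ : κ → ι → ℂ} (h₁ : Continuous f₁) (h₂ : Continuous f₂)
    (hli : ∀ k ∈ K, LinearIndependent ℂ ![f₁ k, f₂ k])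
    {D : Set (PS ι × Submodule ℂ (ι → ℂ))} (hD : ∀ p ∈ D, ∃ k ∈ K, IsFrame p (f₁ k) (f₂ k)) :
    ∀ p ∈ closureDirs D, ∃ k ∈ K, IsFrame p (f₁ k) (f₂ k) := by
  rintro p ⟨v, w, hp, hcl⟩
  -- the closed set of the pairs which are compatible with some element of `K`
  set C : Set (((ι → ℂ) × (ι → ℂ)) × κ) := {z | (∀ i j, z.1.1 i * f₁ z.2 j = z.1.1 j * f₁ z.2 i) ∧
    ¬ LinearIndependent ℂ ![f₁ z.2, f₂ z.2, z.1.2]} with hC
  have hCc : IsClosed C := by
    have e1 : IsClosed {z : ((ι → ℂ) × (ι → ℂ)) × κ |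
        ∀ i j, z.1.1 i * f₁ z.2 j = z.1.1 j * f₁ z.2 i} := by
      simp only [Set.ofPred_forall]
      refine isClosed_iInter fun i => isClosed_iInter fun j => ?_
      exact isClosed_eq (by fun_prop) (by fun_prop)
    have e2 : IsClosed {z : ((ι → ℂ) × (ι → ℂ)) × κ |
        ¬ LinearIndependent ℂ ![f₁ z.2, f₂ z.2, z.1.2]} := by
      have h := (isOpen_setOfPred_linearIndependent (𝕜 := ℂ) (E := ι → ℂ) (ι := Fin 3))
      have hc : Continuous fun z : ((ι → ℂ) × (ι → ℂ)) × κ => ![f₁ z.2, f₂ z.2, z.1.2] := by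
        refine continuous_pi fun i => ?_
        fin_cases i
        · simpa using (by fun_prop : Continuous fun z : ((ι → ℂ) × (ι → ℂ)) × κ => f₁ z.2)
        · simpa using (by fun_prop : Continuous fun z : ((ι → ℂ) × (ι → ℂ)) × κ => f₂ z.2)
        · simpa using (by fun_prop : Continuous fun z : ((ι → ℂ) × (ι → ℂ)) × κ => z.1.2)
      exact (h.preimage hc).isClosed_compl
    exact e1.inter e2
  set E : Set ((ι → ℂ) × (ι → ℂ)) := {q | ∃ k ∈ K, (q, k) ∈ C} with hE
  have hEc : IsClosed E := by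
    have : E = Prod.fst '' (C ∩ (Set.univ ×ˢ K)) := by
      ext q
      constructor
      · rintro ⟨k, hk, hq⟩
        exact ⟨(q, k), ⟨hq, Set.mem_univ _, hk⟩, rfl⟩
      · rintro ⟨⟨q', k⟩, ⟨hq, -, hk⟩, rfl⟩
        exact ⟨k, hk, hq⟩
    have hK' : CompactSpace K := isCompact_iff_compactSpace.1 hK
    have e3 : E = Prod.fst '' {z : ((ι → ℂ) × (ι → ℂ)) × K | (z.1, (z.2 : κ)) ∈ C} := by
      ext q
      constructor
      · rintro ⟨k, hk, hq⟩
        exact ⟨(q, ⟨k, hk⟩), hq, rfl⟩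
      · rintro ⟨⟨q', k⟩, hq, rfl⟩
        exact ⟨k, k.2, hq⟩
    rw [e3]
    refine isClosedMap_fst_of_compactSpace _ (hCc.preimage ?_)
    fun_prop
  have hsub : frames D ⊆ E := by
    rintro q ⟨p', hp', hq⟩
    obtain ⟨k, hk, hf⟩ := hD p' hp'
    obtain ⟨a, b, c, ha, hb, h3, h4⟩ := hf.exists hq
    refine ⟨k, hk, fun i j => ?_, fun hl => ?_⟩
    · change q.1 i * f₁ k j = q.1 j * f₁ k i
      rw [h3]; simp only [Pi.smul_apply, smul_eq_mul]; ring
    · change LinearIndependent ℂ ![f₁ k, f₂ k, q.2] at hl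
      rw [Fintype.linearIndependent_iff] at hl
      have := hl ![c, b, -1] (by simp [Fin.sum_univ_three, h4]) 2
      simp at this
  have hmem : (v, w) ∈ E := closure_minimal hsub hEc hcl
  obtain ⟨k, hk, h3, h4⟩ := hmem
  change ∀ i j, v i * f₁ k j = v j * f₁ k i at h3
  change ¬ LinearIndependent ℂ ![f₁ k, f₂ k, w] at h4
  have hl := hli k hk
  -- v is a multiple of f₁ k
  have hne : f₁ k ≠ 0 := by simpa using hl.ne_zero 0
  obtain ⟨j, hj⟩ := Function.ne_iff.1 hne
  have hj' : f₁ k j ≠ 0 := hj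
  have hv : v = (v j / f₁ k j) • f₁ k := by
    ext i
    rw [Pi.smul_apply, smul_eq_mul]
    have := h3 i j
    field_simp
    linear_combination this
  have hv0 : v j / f₁ k j ≠ 0 := by
    intro h0
    rw [h0, zero_smul] at hv
    exact hp.2.1.ne_zero hv
  have hw : ∃ b c : ℂ, w = b • f₂ k + c • f₁ k := by
    rw [Fintype.linearIndependent_iff] at h4
    push Not at h4
    obtain ⟨g, hg, i, hi⟩ := h4
    simp only [Fin.sum_univ_three, Matrix.cons_val_zero, Matrix.cons_val_one,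
      Matrix.cons_val_two, Matrix.tail_cons, Matrix.head_cons] at hg
    have h2 : g 2 ≠ 0 := by
      intro h0
      rw [LinearIndependent.pair_iff] at hl
      have := hl (g 0) (g 1) (by rw [h0] at hg; simpa using hg)
      fin_cases i
      · exact hi this.1
      · exact hi this.2
      · exact hi h0
    refine ⟨-(g 1) / g 2, -(g 0) / g 2, ?_⟩
    have h5 : g 2 • w = -(g 1) • f₂ k + -(g 0) • f₁ k := by
      have h6 : g 0 • f₁ k + g 1 • f₂ k + g 2 • w = 0 := by simpa using hg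
      calc g 2 • w = (g 0 • f₁ k + g 1 • f₂ k + g 2 • w) - g 0 • f₁ k - g 1 • f₂ k := by abel
        _ = _ := by rw [h6]; simp only [neg_smul]; abel
    have h7 : w = (g 2)⁻¹ • (g 2 • w) := by rw [smul_smul, inv_mul_cancel₀ h2, one_smul]
    rw [h7, h5, smul_add, smul_smul, smul_smul]
    congr 2 <;> ring
  obtain ⟨b, c, hw⟩ := hw
  have hb : b ≠ 0 := by
    rintro rfl
    have h5 := hp.1
    rw [LinearIndependent.pair_iff] at h5
    have := h5 (-c) (v j / f₁ k j) (by
      nth_rewrite 1 [hv]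
      rw [hw, smul_smul]
      simp [smul_smul, mul_comm])
    exact hv0 this.2
  refine ⟨k, hk, ?_⟩
  obtain ⟨p', hp'⟩ := exists_isFrame hl
  have h6 := hp'.change (c := c) hv0 hb
  rw [← hv, ← hw] at h6
  rwa [hp.unique h6]

end Pool.Agent.R868.AEC
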