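import Pool.Agent.R868.AEC.Fam

set_option autoImplicit false

open MvPolynomial Module Filter
open scoped LinearAlgebra.Projectivization Topology PeriodPair

namespace Pool.Agent.R868.AEC

open H667R3

variable (L : PeriodPair) (P : Par)

lemma Par.ne_zero (x : ℂ) : ¬ (P.α + P.β * x = 0 ∧ P.γ + P.δ * x = 0) := by
  rintro ⟨h1, h2⟩
  apply P.ne
  linear_combination P.δ * h1 - P.β * h2

lemma Par.ne_zero' : ¬ (P.β = 0 ∧ P.δ = 0) := by
  rintro ⟨h1, h2⟩
  apply P.ne
  rw [h1, h2]; ring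

/-- the affine part -/
noncomputable def gA (e t : ℂ) : Fin 8 → ℂ :=
  W8 (e * ℘'[L] t ^ 3) (P.α + P.β * ℘[L] t) (P.γ + P.δ * ℘[L] t)

lemma gA_ne (e t : ℂ) : gA L P e t ≠ 0 := W8_ne_zero (P.ne_zero _)

open Classical in
/-- the vectors of coordinates of the points of the curve -/
noncomputable def vc (e t : ℂ) : Fin 8 → ℂ :=
  if t ∈ L.lattice then W8 0 P.β P.δ else gA L P e t

lemma vc_ne (e t : ℂ) : vc L P e t ≠ 0 := by
  unfold vc
  split_ifs
  · exact W8_ne_zero P.ne_zero'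
  · exact gA_ne L P e t

/-- the curve -/
noncomputable def crv (e t : ℂ) : PS (Fin 8) := Projectivization.mk ℂ (vc L P e t) (vc_ne L P e t)

lemma crv_coord (e t : ℂ) : IsCoord (crv L P e t) (vc L P e t) := isCoord_mk _

lemma crv_coord_notMem (e : ℂ) {t : ℂ} (ht : t ∉ L.lattice) :
    IsCoord (crv L P e t) (gA L P e t) := by
  have := crv_coord L P e t
  rwa [vc, if_neg ht] at this

lemma crv_coord_mem (e : ℂ) {t : ℂ} (ht : t ∈ L.lattice) :
    IsCoord (crv L P e t) (W8 0 P.β P.δ) := by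
  have := crv_coord L P e t
  rwa [vc, if_pos ht] at this

lemma crv_periodic (e t : ℂ) {l : ℂ} (hl : l ∈ L.lattice) :
    crv L P e (t + l) = crv L P e t := by
  have hmem : t + l ∈ L.lattice ↔ t ∈ L.lattice := by
    constructor
    · intro h
      have := L.lattice.sub_mem h hl
      rwa [add_sub_cancel_right] at this
    · intro h; exact L.lattice.add_mem h hl
  by_cases ht : t ∈ L.lattice
  · exact (crv_coord_mem L P e (hmem.2 ht)).unique (crv_coord_mem L P e ht)
  · have h1 := crv_coord_notMem L P e (fun h => ht (hmem.1 h))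
    have h2 : gA L P e (t + l) = gA L P e t := by
      unfold gA
      have e1 := L.weierstrassP_add_coe t ⟨l, hl⟩
      have e2 := L.derivWeierstrassP_add_coe t ⟨l, hl⟩
      simp only at e1 e2
      rw [e1, e2]
    rw [h2] at h1
    exact h1.unique (crv_coord_notMem L P e ht)

lemma differentiableAt_wp {t : ℂ} (ht : t ∉ L.lattice) : AnalyticAt ℂ ℘[L] t :=
  L.analyticOnNhd_weierstrassP t ht

lemma analyticAt_wp' {t : ℂ} (ht : t ∉ L.lattice) : AnalyticAt ℂ ℘'[L] t :=
  L.analyticOnNhd_derivWeierstrassP t ht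

lemma analyticAt_W8 {f g h : ℂ → ℂ} {t : ℂ} (hf : AnalyticAt ℂ f t) (hg : AnalyticAt ℂ g t)
    (hh : AnalyticAt ℂ h t) : AnalyticAt ℂ (fun s => W8 (f s) (g s) (h s)) t := by
  rw [analyticAt_pi_iff]
  intro i
  fin_cases i <;> simp [W8] <;> fun_prop

lemma isLift_gA (e : ℂ) {t : ℂ} (ht : t ∉ L.lattice) : IsLift (crv L P e) t (gA L P e) := by
  have h1 := differentiableAt_wp L ht
  have h2 := analyticAt_wp' L ht
  refine ⟨analyticAt_W8 (by fun_prop) (by fun_prop) (by fun_prop), ?_⟩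
  filter_upwards [(isOpen_compl L).mem_nhds ht] with s hs
  exact crv_coord_notMem L P e hs

/-- the lift near a lattice point -/
noncomputable def gB (e l t : ℂ) : Fin 8 → ℂ :=
  W8 (e * ((t - l) * (-2 + (t - l) ^ 3 * ℘'[L - (0 : ℂ)] (t - l))) ^ 3)
    (P.α * (t - l) ^ 2 + P.β * (1 + (t - l) ^ 2 * ℘[L - (0 : ℂ)] (t - l)))
    (P.γ * (t - l) ^ 2 + P.δ * (1 + (t - l) ^ 2 * ℘[L - (0 : ℂ)] (t - l)))

lemma isLift_gB (e : ℂ) {l : ℂ} (hl : l ∈ L.lattice) : IsLift (crv L P e) l (gB L P e l) := by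
  have h1 : AnalyticAt ℂ (fun t => ℘[L - (0 : ℂ)] (t - l)) l := by
    have := L.analyticAt_weierstrassPExcept 0
    exact AnalyticAt.fun_comp (f := fun t => t - l) (by simpa using this) (by fun_prop)
  have h2 : AnalyticAt ℂ (fun t => ℘'[L - (0 : ℂ)] (t - l)) l := by
    have := L.analyticAt_derivWeierstrassPExcept 0
    exact AnalyticAt.fun_comp (f := fun t => t - l) (by simpa using this) (by fun_prop)
  refine ⟨analyticAt_W8 (by fun_prop) (by fun_prop) (by fun_prop), ?_⟩
  have h3 := L.compl_lattice_sdiff_singleton_mem_nhds l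
  filter_upwards [h3] with s hs
  by_cases hsl : s = l
  · rw [hsl]
    have := crv_coord_mem L P e hl
    convert this using 1
    simp [gB]
  · have hs' : s ∉ L.lattice := fun h => hs ⟨h, hsl⟩
    have h4 := crv_coord_notMem L P e hs'
    have hσ : s - l ≠ 0 := sub_ne_zero.2 hsl
    rw [h4.smul_iff]
    refine ⟨((s - l) ^ 2) ^ 6, pow_ne_zero _ (pow_ne_zero _ hσ), ?_⟩
    have e1 : ℘[L] s = ℘[L - (0 : ℂ)] (s - l) + 1 / (s - l) ^ 2 := by
      have e2 := L.weierstrassP_sub_coe s ⟨l, hl⟩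
      have e3 := L.weierstrassPExcept_add (0 : L.lattice) (s - l)
      simp only [ZeroMemClass.coe_zero, sub_zero] at e3
      simp only at e2
      rw [← e2, ← e3]
      simp
    have e1' : ℘'[L] s = ℘'[L - (0 : ℂ)] (s - l) - 2 / (s - l) ^ 3 := by
      have e2 := L.derivWeierstrassP_sub_coe s ⟨l, hl⟩
      have e3 := L.derivWeierstrassPExcept_sub (0 : L.lattice) (s - l)
      simp only [ZeroMemClass.coe_zero, sub_zero] at e3
      simp only at e2
      rw [← e2, ← e3]
    rw [gA, ← W8_smul, gB, e1, e1']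
    congr 1 <;> field_simp <;> ring

lemma deriv_gB (e : ℂ) {l : ℂ} : deriv (gB L P e l) l = 0 := by
  have h1 : AnalyticAt ℂ (fun t => ℘[L - (0 : ℂ)] (t - l)) l := by
    have := L.analyticAt_weierstrassPExcept 0
    exact AnalyticAt.fun_comp (f := fun t => t - l) (by simpa using this) (by fun_prop)
  have h2 : AnalyticAt ℂ (fun t => ℘'[L - (0 : ℂ)] (t - l)) l := by
    have := L.analyticAt_derivWeierstrassPExcept 0
    exact AnalyticAt.fun_comp (f := fun t => t - l) (by simpa using this) (by fun_prop)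
  have h0 : HasDerivAt (fun t : ℂ => t - l) 1 l := (hasDerivAt_id l).sub_const l
  have hd1 := h1.differentiableAt.hasDerivAt
  have hd2 := h2.differentiableAt.hasDerivAt
  have hx : HasDerivAt (fun t => e * ((t - l) * (-2 + (t - l) ^ 3 * ℘'[L - (0 : ℂ)] (t - l))) ^ 3)
      0 l := by
    refine (((h0.mul (((h0.pow 3).mul hd2).const_add (-2))).pow 3).const_mul e).congr_deriv ?_
    simp
  have hs : HasDerivAt (fun t : ℂ => (t - l) ^ 2) 0 l := by
    refine (h0.pow 2).congr_deriv ?_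
    simp
  have hX : HasDerivAt (fun t => 1 + (t - l) ^ 2 * ℘[L - (0 : ℂ)] (t - l)) 0 l := by
    refine ((hs.mul hd1).const_add 1).congr_deriv ?_
    simp
  have hu : ∀ a b : ℂ, HasDerivAt (fun t => a * (t - l) ^ 2 +
      b * (1 + (t - l) ^ 2 * ℘[L - (0 : ℂ)] (t - l))) 0 l := by
    intro a b
    refine ((hs.const_mul a).add (hX.const_mul b)).congr_deriv ?_
    simp
  have := hasDerivAt_W8 hx (hu P.α P.β) (hu P.γ P.δ)
  have h3 : deriv (gB L P e l) l = _ := this.deriv
  rw [h3]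
  ext i
  fin_cases i <;> simp [T8]

/-- comparison of two lifts -/
lemma lift_compare {ι : Type} [Fintype ι] {φ : ℂ → PS ι} {t : ℂ} {g g' : ℂ → ι → ℂ}
    (h : IsLift φ t g) (h' : IsLift φ t g') :
    ∃ a c : ℂ, a ≠ 0 ∧ g' t = a • g t ∧ deriv g' t = a • deriv g t + c • g t := by
  have hne : g t ≠ 0 := h.2.self_of_nhds.ne_zero
  obtain ⟨j, hj⟩ := Function.ne_iff.1 hne
  have hj' : g t j ≠ 0 := hj
  have han : ∀ (f : ℂ → ι → ℂ), AnalyticAt ℂ f t → AnalyticAt ℂ (fun s => f s j) t := fun f hf =>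
    (ContinuousLinearMap.proj (R := ℂ) (φ := fun _ : ι => ℂ) j).analyticAt _ |>.comp hf
  have h1 := han g h.1
  have h2 := han g' h'.1
  set ρ : ℂ → ℂ := fun s => g' s j / g s j with hρ
  have hρd : DifferentiableAt ℂ ρ t := h2.differentiableAt.div h1.differentiableAt hj'
  have h3 : g' =ᶠ[𝓝 t] fun s => ρ s • g s := by
    filter_upwards [h.2, h'.2, h1.continuousAt.eventually_ne hj'] with s hs hs' hs2
    obtain ⟨c, hc, he⟩ := hs.smul_iff.1 hs'
    have : ρ s = c := by
      simp only [hρ]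
      rw [he, Pi.smul_apply, smul_eq_mul, mul_div_assoc, div_self hs2, mul_one]
    rw [this]
    exact he
  refine ⟨ρ t, deriv ρ t, ?_, h3.eq_of_nhds, ?_⟩
  · simp only [hρ]
    intro h0
    have h4 := h3.eq_of_nhds
    simp only [hρ] at h4
    rw [h0, zero_smul] at h4
    exact h'.2.self_of_nhds.ne_zero h4
  · rw [h3.deriv_eq]
    exact (hρd.hasDerivAt.smul h.1.differentiableAt.hasDerivAt).deriv

end Pool.Agent.R868.AEC
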