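import Mathlib

/-!
# Cohomologically approximately elliptically connected curves in projective spaces

Definitions for the problem MP_c0c493_ag, in the case of curves `X` (dimension one).
-/

set_option autoImplicit false

open MvPolynomial
open scoped LinearAlgebra.Projectivization Topology

namespace Pool.Agent.R868.AEC

/-- The complex projective space with homogeneous coordinates indexed by `ι`. -/
abbrev PS (ι : Type) : Type := ℙ ℂ (ι → ℂ)

/-- `v` is a vector of homogeneous coordinates of the point `x`. -/
def IsCoord {ι : Type} (x : PS ι) (v : ι → ℂ) : Prop :=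
  ∃ h : v ≠ 0, x = Projectivization.mk ℂ v h

/-- A tangent direction of the projective space is a pair of a point and of a line through this
point (a subspace of dimension two of the vector space). `IsFrame p v w`: the vectors `v` and `w`
are a basis of the line of `p`, and `v` is a vector of homogeneous coordinates of the point. -/
def IsFrame {ι : Type} (p : PS ι × Submodule ℂ (ι → ℂ)) (v w : ι → ℂ) : Prop :=
  LinearIndependent ℂ ![v, w] ∧ IsCoord p.1 v ∧ p.2 = Submodule.span ℂ {v, w}

/-- The set of all frames of the tangent directions in `D`. -/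
def frames {ι : Type} (D : Set (PS ι × Submodule ℂ (ι → ℂ))) : Set ((ι → ℂ) × (ι → ℂ)) :=
  {q | ∃ p ∈ D, IsFrame p q.1 q.2}

/-- `V` is a Euclidean-open subset of the projective space. -/
def IsOpenSet {ι : Type} (V : Set (PS ι)) : Prop := IsOpen {v : ι → ℂ | ∃ x ∈ V, IsCoord x v}

/-- `W` is a Euclidean-open subset of the projectivized tangent bundle of the projective space. -/
def IsOpenDirs {ι : Type} (W : Set (PS ι × Submodule ℂ (ι → ℂ))) : Prop := IsOpen (frames W)

/-- The closure in the projectivized tangent bundle. -/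
def closureDirs {ι : Type} (D : Set (PS ι × Submodule ℂ (ι → ℂ))) :
    Set (PS ι × Submodule ℂ (ι → ℂ)) :=
  {p | ∃ v w, IsFrame p v w ∧ (v, w) ∈ closure (frames D)}

/-- The tangent directions of `X` (the set `P (T_X)` if `X` is smooth): the directions of the
holomorphic arcs in `X`. -/
def tangentDirections {ι : Type} [Fintype ι] (X : Set (PS ι)) :
    Set (PS ι × Submodule ℂ (ι → ℂ)) :=
  {p | ∃ γ : ℂ → ι → ℂ, AnalyticAt ℂ γ 0 ∧ (∀ᶠ t in 𝓝 0, ∃ x ∈ X, IsCoord x (γ t)) ∧
    IsFrame p (γ 0) (deriv γ 0)}

/-- `g` gives holomorphic homogeneous coordinates of the map `φ` near `t`. -/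
def IsLift {ι : Type} [Fintype ι] (φ : ℂ → PS ι) (t : ℂ) (g : ℂ → ι → ℂ) : Prop :=
  AnalyticAt ℂ g t ∧ ∀ᶠ s in 𝓝 t, IsCoord (φ s) (g s)

/-- `φ` is a holomorphic map from the elliptic curve `ℂ / Λ` to the projective space, which is
injective outside a finite set. So its image is an irreducible curve of geometric genus one, and `φ`
is its normalization; every such curve arises in this way. -/
structure IsElliptic {ι : Type} [Fintype ι] (L : PeriodPair) (φ : ℂ → PS ι) : Prop where
  holomorphic : ∀ t, ∃ g, IsLift φ t g
  periodic : ∀ t, ∀ l ∈ L.lattice, φ (t + l) = φ t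
  injective : ∃ S : Set ℂ, S.Finite ∧ ∀ t, (∀ s ∈ S, t - s ∉ L.lattice) →
    ∀ t', φ t' = φ t → t' - t ∈ L.lattice

/-- The image of `φ` is a curve of degree `d`: there is a hyperplane `∑ i, a i * x i = 0` whose
equation has exactly `d` zeros on `ℂ / Λ`, all of them simple. -/
def HasDegree {ι : Type} [Fintype ι] (L : PeriodPair) (φ : ℂ → PS ι) (d : ℕ) : Prop :=
  ∃ (a : ι → ℂ) (T : Finset ℂ), T.card = d ∧ (∀ t ∈ T, ∀ t' ∈ T, t - t' ∈ L.lattice → t = t') ∧
    (∀ t, (∃ t' ∈ T, t - t' ∈ L.lattice) ↔ ∀ v, IsCoord (φ t) v → ∑ i, a i * v i = 0) ∧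
    ∀ t ∈ T, ∃ g, IsLift φ t g ∧ deriv (fun s => ∑ i, a i * g s i) t ≠ 0

/-- The tangent lift of the image of `φ`: the closure of the set of the tangent directions at the
points at which `φ` is an immersion. -/
def tangentLift {ι : Type} [Fintype ι] (φ : ℂ → PS ι) : Set (PS ι × Submodule ℂ (ι → ℂ)) :=
  closureDirs {p | ∃ t g, IsLift φ t g ∧ IsFrame p (g t) (deriv g t)}

/-- A smooth projective curve `X` is cohomologically approximately elliptically connected: for all
open neighbourhoods `V` of `X` and `W` of `P (T_X)` there are elliptic curves through each point of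
`X` (finitely many, numbered by `i`), contained in `V`, with tangent lifts in `W`, such that their
classes do not depend on the point and some combination of these classes with positive coefficients
is strongly positive. As `X` is a curve, `H_2 (V, ℤ) = ℤ [X]` (for tubular neighbourhoods `V`), and
the class of a curve of degree `d` in `V` is the number `d / deg X` in `H^0 (X)`; a class is strongly
positive if the number is positive. -/
def ApproxEllipticallyConnected {ι : Type} [Fintype ι] (X : Set (PS ι)) : Prop :=
  ∀ V : Set (PS ι), IsOpenSet V → X ⊆ V →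
  ∀ W : Set (PS ι × Submodule ℂ (ι → ℂ)), IsOpenDirs W → tangentDirections X ⊆ W →
  ∃ (k : ℕ) (d n : Fin k → ℕ), (∀ i, 0 < n i) ∧ 0 < ∑ i, n i * d i ∧
    ∀ x ∈ X, ∀ i, ∃ (L : PeriodPair) (φ : ℂ → PS ι), IsElliptic L φ ∧ HasDegree L φ (d i) ∧
      x ∈ Set.range φ ∧ Set.range φ ⊆ V ∧ tangentLift φ ⊆ W

/-- `j` is an embedding of the projective line into a projective space: it is given by homogeneous
polynomials of the same degree without common zeros, it is injective, and it is an immersion. -/
def IsEmbedding {ι : Type} (j : PS (Fin 2) → PS ι) : Prop :=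
  ∃ (m : ℕ) (G : ι → MvPolynomial (Fin 2) ℂ), (∀ i, (G i).IsHomogeneous m) ∧
    (∀ x v, IsCoord x v → IsCoord (j x) fun i => eval v (G i)) ∧ Function.Injective j ∧
    ∀ v w : Fin 2 → ℂ, LinearIndependent ℂ ![v, w] →
      LinearIndependent ℂ ![fun i => eval v (G i), fun i => ∑ l, w l * eval v (pderiv l (G i))]

end Pool.Agent.R868.AEC
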