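import Pool.Agent.R868.AEC.Dir

set_option autoImplicit false

open MvPolynomial Module Filter
open scoped LinearAlgebra.Projectivization Topology PeriodPair

namespace Pool.Agent.R868.AEC

open H667R3

variable (L : PeriodPair) (P : Par)

/-- the curve is injective outside the points where the first form vanishes -/
lemma crv_inj {e : ℂ} (he : e ≠ 0) {t t' : ℂ} (h : crv L P e t' = crv L P e t) :
    t' - t ∈ L.lattice := by
  have hpar : ∀ x y : ℂ, (P.α + P.β * x) * (P.γ + P.δ * y) = (P.α + P.β * y) * (P.γ + P.δ * x) →
      x = y := by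
    intro x y h
    have : (P.α * P.δ - P.β * P.γ) * (x - y) = 0 := by linear_combination -h
    rcases mul_eq_zero.1 this with h1 | h1
    · exact absurd h1 P.ne
    · exact sub_eq_zero.1 h1
  by_cases ht : t ∈ L.lattice
  · by_cases ht' : t' ∈ L.lattice
    · exact L.lattice.sub_mem ht' ht
    · exfalso
      obtain ⟨c, hc, h1⟩ := ((crv_coord_mem L P e ht).eq_iff (crv_coord_notMem L P e ht')).1 h.symm
      rw [gA] at h1
      have h2 := W8_par hc h1
      apply P.ne
      linear_combination h2
  · by_cases ht' : t' ∈ L.lattice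
    · exfalso
      obtain ⟨c, hc, h1⟩ := ((crv_coord_mem L P e ht').eq_iff (crv_coord_notMem L P e ht)).1 h
      rw [gA] at h1
      have h2 := W8_par hc h1
      apply P.ne
      linear_combination h2
    · obtain ⟨c, hc, h1⟩ :=
        ((crv_coord_notMem L P e ht).eq_iff (crv_coord_notMem L P e ht')).1 h.symm
      rw [gA, gA] at h1
      have h2 := hpar _ _ (W8_par hc h1)
      -- the scalar is one
      have hc1 : c = 1 := by
        rw [h2] at h1
        have h3 := congrFun h1 1
        have h4 := congrFun h1 7
        simp [W8] at h3 h4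
        by_cases hu : P.α + P.β * ℘[L] t = 0
        · have hv : P.γ + P.δ * ℘[L] t ≠ 0 := fun hv => P.ne_zero _ ⟨hu, hv⟩
          have h5 : (1 - c) * (P.γ + P.δ * ℘[L] t) ^ 6 = 0 := by linear_combination h4
          have := (mul_eq_zero.1 h5).resolve_right (pow_ne_zero _ hv)
          linear_combination -this
        · have h5 : (1 - c) * (P.α + P.β * ℘[L] t) ^ 6 = 0 := by linear_combination h3
          have := (mul_eq_zero.1 h5).resolve_right (pow_ne_zero _ hu)
          linear_combination -this
      have h3 : ℘'[L] t' ^ 3 = ℘'[L] t ^ 3 := by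
        rw [hc1, one_smul] at h1
        have := congrFun h1 0
        simp [W8, he] at this
        exact this
      rcases (wp_eq_iff L ht' ht).1 h2 with h4 | h4
      · -- t' = -t
        have h5 : ℘'[L] t' = -℘'[L] t := by
          have e : t' = -t + (t' + t) := by ring
          rw [e]
          have := L.derivWeierstrassP_add_coe (-t) ⟨_, h4⟩
          simp only at this
          rw [this, L.derivWeierstrassP_neg]
        rw [h5] at h3
        have h6 : ℘'[L] t = 0 := by
          have : ℘'[L] t ^ 3 = 0 := by
            have h7 : 2 * ℘'[L] t ^ 3 = 0 := by linear_combination -h3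
            exact (mul_eq_zero.1 h7).resolve_left two_ne_zero
          exact (pow_eq_zero_iff (three_ne_zero)).1 this
        have h7 : 2 * t ∈ L.lattice := by
          by_contra hcon
          exact wp'_ne_zero L hcon h6
        have := L.lattice.sub_mem h4 h7
        convert this using 1
        ring
      · exact h4

lemma isElliptic_crv {e : ℂ} (he : e ≠ 0) : IsElliptic L (crv L P e) where
  holomorphic t := by
    by_cases ht : t ∈ L.lattice
    · exact ⟨_, isLift_gB L P e ht⟩
    · exact ⟨_, isLift_gA L P e ht⟩
  periodic t _ hl := crv_periodic L P e t hl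
  injective := ⟨∅, Set.finite_empty, fun _ _ _ h => crv_inj L P he h⟩

/-- a product of linear forms is a form -/
lemma prod_forms : ∀ (n : ℕ) (A B : ℕ → ℂ), ∃ c : ℕ → ℂ, ∀ u v : ℂ,
    ∑ i ∈ Finset.range (n + 1), c i * (u ^ (n - i) * v ^ i) =
      ∏ k ∈ Finset.range n, (A k * v - B k * u) := by
  intro n
  induction n with
  | zero => intro A B; exact ⟨fun _ => 1, fun u v => by simp⟩
  | succ n ih =>
    intro A B
    obtain ⟨c, hc⟩ := ih A B
    refine ⟨fun i => (if i = 0 then 0 else A n * c (i - 1)) - (if i ≤ n then B n * c i else 0),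
      fun u v => ?_⟩
    rw [Finset.prod_range_succ, ← hc u v]
    have h1 : ∑ i ∈ Finset.range (n + 1 + 1), (if i = 0 then 0 else A n * c (i - 1)) *
        (u ^ (n + 1 - i) * v ^ i) = (∑ i ∈ Finset.range (n + 1), c i * (u ^ (n - i) * v ^ i)) *
          (A n * v) := by
      rw [Finset.sum_range_succ', Finset.sum_mul]
      simp only [Nat.add_eq_zero_iff, one_ne_zero, and_false, if_false, Nat.add_sub_cancel,
        Nat.add_sub_add_right, if_true, zero_mul, add_zero]
      refine Finset.sum_congr rfl fun i _ => ?_
      ring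
    have h2 : ∑ i ∈ Finset.range (n + 1 + 1), (if i ≤ n then B n * c i else 0) *
        (u ^ (n + 1 - i) * v ^ i) = (∑ i ∈ Finset.range (n + 1), c i * (u ^ (n - i) * v ^ i)) *
          (B n * u) := by
      rw [Finset.sum_range_succ, Finset.sum_mul]
      have e : ¬ n + 1 ≤ n := by omega
      rw [if_neg e, zero_mul, add_zero]
      refine Finset.sum_congr rfl fun i hi => ?_
      have hi' : i ≤ n := by rw [Finset.mem_range] at hi; omega
      rw [if_pos hi']
      have e2 : n + 1 - i = (n - i) + 1 := by omega
      rw [e2]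
      ring
    have h3 : ∀ i, ((if i = 0 then 0 else A n * c (i - 1)) - (if i ≤ n then B n * c i else 0)) *
        (u ^ (n + 1 - i) * v ^ i) = (if i = 0 then 0 else A n * c (i - 1)) *
        (u ^ (n + 1 - i) * v ^ i) - (if i ≤ n then B n * c i else 0) *
        (u ^ (n + 1 - i) * v ^ i) := fun i => by ring
    rw [Finset.sum_congr rfl fun i _ => h3 i, Finset.sum_sub_distrib, h1, h2]
    ring

/-- rational multiples of a period -/
lemma mul_period_mem {m : ℤ} (h : ((m : ℂ) / 13) * L.ω₁ ∈ L.lattice) : (13 : ℤ) ∣ m := by
  have h1 := (L.mul_ω₁_add_mul_ω₂_mem_lattice (α := (m : ℚ) / 13) (β := 0)).1 (by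
    push_cast; simpa using h)
  have h2 := h1.1
  have h3 : (m : ℚ) / 13 = (((m : ℚ) / 13).num : ℚ) := by
    conv_lhs => rw [← Rat.num_div_den ((m : ℚ) / 13)]
    rw [h2]; simp
  rw [div_eq_iff (by norm_num)] at h3
  refine ⟨((m : ℚ) / 13).num, ?_⟩
  have : (m : ℚ) = ((13 * ((m : ℚ) / 13).num : ℤ) : ℚ) := by push_cast; linarith
  exact_mod_cast this

end Pool.Agent.R868.AEC
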