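import Pool.Agent.R868.AEC.Deg

set_option autoImplicit false

open MvPolynomial Module Filter
open scoped LinearAlgebra.Projectivization Topology PeriodPair

namespace Pool.Agent.R868.AEC

open H667R3

variable (L : PeriodPair) (P : Par)

/-- rational multiples of a period -/
noncomputable def tau (m : ℤ) : ℂ := ((m : ℂ) / 13) * L.ω₁

lemma tau_sub (m n : ℤ) : tau L m - tau L n = tau L (m - n) := by
  simp only [tau]; push_cast; ring

lemma tau_add (m n : ℤ) : tau L m + tau L n = tau L (m + n) := by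
  simp only [tau]; push_cast; ring

lemma tau_neg (m : ℤ) : -tau L m = tau L (-m) := by
  simp only [tau]; push_cast; ring

lemma tau_notMem {m : ℤ} (h : ¬ (13 : ℤ) ∣ m) : tau L m ∉ L.lattice := fun h' =>
  h (mul_period_mem L h')

lemma wp_tau_ne {m n : ℤ} (hm : ¬ (13 : ℤ) ∣ m) (hn : ¬ (13 : ℤ) ∣ n) (h1 : ¬ (13 : ℤ) ∣ m + n)
    (h2 : ¬ (13 : ℤ) ∣ m - n) : ℘[L] (tau L m) ≠ ℘[L] (tau L n) := by
  intro h
  rcases (wp_eq_iff L (tau_notMem L hm) (tau_notMem L hn)).1 h with h | h
  · rw [tau_add] at h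
    exact tau_notMem L h1 h
  · rw [tau_sub] at h
    exact tau_notMem L h2 h

lemma wp_add_mem {t l : ℂ} (hl : l ∈ L.lattice) : ℘[L] (t + l) = ℘[L] t :=
  L.weierstrassP_add_coe t ⟨l, hl⟩

theorem hasDegree_crv (e : ℂ) : HasDegree L (crv L P e) 12 := by
  classical
  set x : ℕ → ℂ := fun k => ℘[L] (tau L (k + 1)) with hx
  obtain ⟨c, hc⟩ := prod_forms 6 (fun k => P.α + P.β * x k) (fun k => P.γ + P.δ * x k)
  set a : Fin 8 → ℂ := ![0, c 0, c 1, c 2, c 3, c 4, c 5, c 6] with ha
  set D : ℂ := P.α * P.δ - P.β * P.γ with hD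
  have hD0 : D ≠ 0 := P.ne
  have hsum : ∀ y u v : ℂ, ∑ i, a i * W8 y u v i =
      ∏ k ∈ Finset.range 6, ((P.α + P.β * x k) * v - (P.γ + P.δ * x k) * u) := by
    intro y u v
    rw [← hc u v]
    simp only [Fin.sum_univ_eight, Finset.sum_range_succ, Finset.sum_range_zero]
    simp [ha, W8]
  have hA : ∀ t, ∑ i, a i * gA L P e t i = ∏ k ∈ Finset.range 6, (D * (℘[L] t - x k)) := by
    intro t
    rw [gA, hsum]
    refine Finset.prod_congr rfl fun k _ => ?_
    rw [hD]; ring
  have hB : ∑ i, a i * W8 0 P.β P.δ i ≠ 0 := by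
    rw [hsum, Finset.prod_ne_zero_iff]
    intro k _
    have : (P.α + P.β * x k) * P.δ - (P.γ + P.δ * x k) * P.β = D := by rw [hD]; ring
    rw [this]; exact hD0
  set S : Finset ℤ := (Finset.Icc (-6) 6).erase 0 with hS
  have hSmem : ∀ m, m ∈ S ↔ m ≠ 0 ∧ -6 ≤ m ∧ m ≤ 6 := by
    intro m; simp [hS]
  have hinj : ∀ m ∈ S, ∀ n ∈ S, tau L m - tau L n ∈ L.lattice → m = n := by
    intro m hm n hn h
    rw [tau_sub] at h
    have := mul_period_mem L h
    rw [hSmem] at hm hn
    omega
  refine ⟨a, S.image (tau L), ?_, ?_, ?_, ?_⟩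
  · rw [Finset.card_image_of_injOn]
    · rfl
    · intro m hm n hn h
      exact hinj m hm n hn (by
        have h' : tau L m = tau L n := h
        rw [h', sub_self]; exact L.lattice.zero_mem)
  · intro t ht t' ht' h
    rw [Finset.mem_image] at ht ht'
    obtain ⟨m, hm, rfl⟩ := ht
    obtain ⟨n, hn, rfl⟩ := ht'
    rw [hinj m hm n hn h]
  · intro t
    constructor
    · rintro ⟨t', ht', h⟩ v hv
      rw [Finset.mem_image] at ht'
      obtain ⟨m, hm, rfl⟩ := ht'
      rw [hSmem] at hm
      have hmL : tau L m ∉ L.lattice := tau_notMem L (by omega)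
      have htL : t ∉ L.lattice := by
        intro h'
        apply hmL
        have := L.lattice.sub_mem h' h
        rwa [sub_sub_cancel] at this
      have hwp : ℘[L] t = ℘[L] (tau L m) := by
        have := wp_add_mem L (t := tau L m) h
        rwa [add_sub_cancel] at this
      obtain ⟨b, hb, hvb⟩ := (crv_coord_notMem L P e htL).smul_iff.1 hv
      rw [hvb]
      have e1 : ∑ i, a i * (b • gA L P e t) i = b * ∑ i, a i * gA L P e t i := by
        rw [Finset.mul_sum]
        refine Finset.sum_congr rfl fun i _ => ?_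
        simp only [Pi.smul_apply, smul_eq_mul]; ring
      rw [e1, hA]
      have : ∏ k ∈ Finset.range 6, (D * (℘[L] t - x k)) = 0 := by
        rw [Finset.prod_eq_zero_iff]
        refine ⟨m.natAbs - 1, by rw [Finset.mem_range]; omega, ?_⟩
        rw [hwp]
        have h3 : ((m.natAbs - 1 : ℕ) : ℤ) + 1 = m ∨ ((m.natAbs - 1 : ℕ) : ℤ) + 1 = -m := by omega
        have h4 : x (m.natAbs - 1) = ℘[L] (tau L m) := by
          simp only [hx]
          rcases h3 with h3 | h3
          · rw [h3]
          · rw [h3, ← tau_neg, L.weierstrassP_neg]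
        rw [h4]; ring
      rw [this, mul_zero]
    · intro h
      by_cases htL : t ∈ L.lattice
      · exact absurd (h _ (crv_coord_mem L P e htL)) hB
      · have h1 := h _ (crv_coord_notMem L P e htL)
        rw [hA, Finset.prod_eq_zero_iff] at h1
        obtain ⟨k, hk, h2⟩ := h1
        rw [Finset.mem_range] at hk
        have h3 : ℘[L] t = ℘[L] (tau L (k + 1)) :=
          sub_eq_zero.1 ((mul_eq_zero.1 h2).resolve_left hD0)
        rcases (wp_eq_iff L htL (tau_notMem L (by omega))).1 h3 with h4 | h4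
        · refine ⟨tau L (-(k + 1)), Finset.mem_image_of_mem _ ((hSmem _).2 (by omega)), ?_⟩
          rwa [← tau_neg, sub_neg_eq_add]
        · exact ⟨tau L (k + 1), Finset.mem_image_of_mem _ ((hSmem _).2 (by omega)), h4⟩
  · intro t ht
    rw [Finset.mem_image] at ht
    obtain ⟨m, hm, rfl⟩ := ht
    rw [hSmem] at hm
    have hmL : tau L m ∉ L.lattice := tau_notMem L (by omega)
    refine ⟨gA L P e, isLift_gA L P e hmL, ?_⟩
    have e1 : (fun s => ∑ i, a i * gA L P e s i) =
        fun s => ∏ k ∈ Finset.range 6, (D * (℘[L] s - x k)) := funext hA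
    rw [e1]
    set k0 : ℕ := m.natAbs - 1 with hk0
    have hk0r : k0 ∈ Finset.range 6 := by rw [Finset.mem_range]; omega
    have e2 : (fun s => ∏ k ∈ Finset.range 6, (D * (℘[L] s - x k))) =
        fun s => (D * (℘[L] s - x k0)) * ∏ k ∈ (Finset.range 6).erase k0, (D * (℘[L] s - x k)) := by
      funext s
      exact (Finset.mul_prod_erase (Finset.range 6) (fun k => D * (℘[L] s - x k)) hk0r).symm
    have h3 : (k0 : ℤ) + 1 = m ∨ (k0 : ℤ) + 1 = -m := by omega
    have h4 : x k0 = ℘[L] (tau L m) := by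
      simp only [hx]
      rcases h3 with h3 | h3
      · rw [h3]
      · rw [h3, ← tau_neg, L.weierstrassP_neg]
    have hd1 : HasDerivAt (fun s => D * (℘[L] s - x k0)) (D * ℘'[L] (tau L m)) (tau L m) :=
      ((hasDerivAt_weierstrassP L hmL).sub_const _).const_mul D
    have hd2 : DifferentiableAt ℂ
        (fun s => ∏ k ∈ (Finset.range 6).erase k0, (D * (℘[L] s - x k))) (tau L m) := by
      have : ∀ k, DifferentiableAt ℂ (fun s => D * (℘[L] s - x k)) (tau L m) := fun k =>
        (((hasDerivAt_weierstrassP L hmL).sub_const _).const_mul D).differentiableAt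
      exact DifferentiableAt.fun_finsetProd fun k _ => this k
    rw [e2, (hd1.fun_mul hd2.hasDerivAt).deriv, h4, sub_self, mul_zero, zero_mul, add_zero]
    refine mul_ne_zero (mul_ne_zero hD0 (wp'_ne_zero L ?_)) ?_
    · have : 2 * tau L m = tau L (2 * m) := by simp only [tau]; push_cast; ring
      rw [this]
      exact tau_notMem L (by omega)
    · rw [Finset.prod_ne_zero_iff]
      intro k hk
      rw [Finset.mem_erase, Finset.mem_range] at hk
      refine mul_ne_zero hD0 (sub_ne_zero.2 ?_)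
      simp only [hx]
      exact wp_tau_ne L (by omega) (by omega) (by omega) (by omega)

end Pool.Agent.R868.AEC
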