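import Pool.Agent.R868.AEC.Curve

set_option autoImplicit false

open MvPolynomial Module Filter
open scoped LinearAlgebra.Projectivization Topology PeriodPair

namespace Pool.Agent.R868.AEC

open H667R3

variable (L : PeriodPair) (P : Par)

/-- the direction vector at a point of the affine part -/
noncomputable def hA (e t : ℂ) : Fin 8 → ℂ :=
  T8 (e * (3 / 2 * ℘'[L] t * Qb L 1 (℘[L] t))) (P.α + P.β * ℘[L] t) (P.γ + P.δ * ℘[L] t) P.β P.δ

lemma deriv_gA (e : ℂ) {t : ℂ} (ht : 2 * t ∉ L.lattice) :
    deriv (gA L P e) t = ℘'[L] t • hA L P e t := by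
  have ht' : t ∉ L.lattice := two_mul_notMem_of L ht
  have h1 : HasDerivAt ℘[L] (℘'[L] t) t := hasDerivAt_weierstrassP L ht'
  have h2 := hasDerivAt_wp' L ht
  have hx : HasDerivAt (fun s => e * ℘'[L] s ^ 3)
      (e * (3 * ℘'[L] t ^ 2 * (6 * ℘[L] t ^ 2 - L.g₂ / 2))) t := by
    refine ((h2.pow 3).const_mul e).congr_deriv ?_
    simp
  have hu : ∀ a b : ℂ, HasDerivAt (fun s => a + b * ℘[L] s) (b * ℘'[L] t) t := fun a b =>
    (h1.const_mul b).const_add a
  have h3 := hasDerivAt_W8 hx (hu P.α P.β) (hu P.γ P.δ)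
  have h4 : deriv (gA L P e) t = _ := h3.deriv
  rw [h4, hA, Qb]
  ext i
  fin_cases i <;> simp [T8] <;> ring

lemma deriv_gA_two (e : ℂ) {t : ℂ} (ht' : t ∉ L.lattice) (ht : 2 * t ∈ L.lattice) :
    deriv (gA L P e) t = 0 := by
  have h0 : ℘'[L] t = 0 := by
    have := wp'_half_eq_zero L ht
    rwa [mul_div_cancel_left₀ _ (two_ne_zero)] at this
  have h1 : HasDerivAt ℘[L] (℘'[L] t) t := hasDerivAt_weierstrassP L ht'
  have h2 := (analyticAt_wp' L ht').differentiableAt.hasDerivAt
  have hx : HasDerivAt (fun s => e * ℘'[L] s ^ 3) 0 t := by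
    refine ((h2.pow 3).const_mul e).congr_deriv ?_
    simp [h0]
  have hu : ∀ a b : ℂ, HasDerivAt (fun s => a + b * ℘[L] s) 0 t := fun a b => by
    refine ((h1.const_mul b).const_add a).congr_deriv ?_
    simp [h0]
  have h3 := hasDerivAt_W8 hx (hu P.α P.β) (hu P.γ P.δ)
  have h4 : deriv (gA L P e) t = _ := h3.deriv
  rw [h4]
  ext i
  fin_cases i <;> simp [T8]

lemma not_linInd_of_zero {ι : Type} {v : ι → ℂ} {a c : ℂ} :
    ¬ LinearIndependent ℂ ![a • v, a • (0 : ι → ℂ) + c • v] := by
  rw [linInd_iff_minor]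
  push Not
  intro i j
  simp
  ring

/-- every tangent direction of the curve belongs to the compact family -/
lemma dir_mem (e : ℂ) {p : PS (Fin 8) × Submodule ℂ (Fin 8 → ℂ)} {t : ℂ} {g : ℂ → Fin 8 → ℂ}
    (hg : IsLift (crv L P e) t g) (hp : IsFrame p (g t) (deriv g t)) :
    ∃ k ∈ KK L, IsFrame p (F1 P e k) (F2 L P e k) := by
  by_cases ht : t ∈ L.lattice
  · exfalso
    obtain ⟨a, c, ha, h1, h2⟩ := lift_compare (isLift_gB L P e ht) hg
    rw [deriv_gB] at h2
    have := hp.1
    rw [h1, h2] at this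
    exact not_linInd_of_zero (v := gB L P e t t) this
  · obtain ⟨a, c, ha, h1, h2⟩ := lift_compare (isLift_gA L P e ht) hg
    by_cases ht2 : 2 * t ∈ L.lattice
    · exfalso
      rw [deriv_gA_two L P e ht ht2] at h2
      have := hp.1
      rw [h1, h2] at this
      exact not_linInd_of_zero (v := gA L P e t) this
    · rw [deriv_gA L P e ht2] at h2
      have hwp := wp'_ne_zero L ht2
      -- the frame (gA, hA)
      have hf : IsFrame p (gA L P e t) (hA L P e t) := by
        have h3 := hp.change (a := a⁻¹) (b := a⁻¹ * (℘'[L] t)⁻¹)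
          (c := -(a⁻¹ * (℘'[L] t)⁻¹ * c * a⁻¹)) (inv_ne_zero ha)
          (mul_ne_zero (inv_ne_zero ha) (inv_ne_zero hwp))
        have e1 : a⁻¹ • g t = gA L P e t := by
          rw [h1, smul_smul, inv_mul_cancel₀ ha, one_smul]
        have e2 : (a⁻¹ * (℘'[L] t)⁻¹) • deriv g t + (-(a⁻¹ * (℘'[L] t)⁻¹ * c * a⁻¹)) • g t =
            hA L P e t := by
          rw [h2, h1, smul_add, smul_smul, smul_smul, smul_smul, smul_smul]
          ext i
          simp only [Pi.add_apply, Pi.smul_apply, smul_eq_mul]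
          field_simp
          ring
        rwa [e1, e2] at h3
      have hrel := L.derivWeierstrassP_sq t ht
      by_cases hb : ‖℘[L] t‖ ≤ 1
      · refine ⟨(1, ℘[L] t, ℘'[L] t, 0, 1), ⟨by simp, hb, by simp, by simp, by simp, ?_⟩, ?_⟩
        · simp only [QQ]
          rw [hrel]; ring
        · have e1 : F1 P e (1, ℘[L] t, ℘'[L] t, 0, 1) = gA L P e t := by
            simp [F1, gA]
          have e2 : F2 L P e (1, ℘[L] t, ℘'[L] t, 0, 1) = hA L P e t := by
            simp [F2, hA]
          rw [e1, e2]; exact hf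
      · push Not at hb
        set x := ℘[L] t with hx
        set y := ℘'[L] t with hy
        have hx0 : x ≠ 0 := by
          intro h0; rw [h0] at hb; simp at hb; linarith
        have hxi : ‖x⁻¹‖ ≤ 1 := by
          rw [norm_inv]
          exact inv_le_one_of_one_le₀ hb.le
        refine ⟨(x⁻¹, 1, x⁻¹ ^ 2 * y, -1, 0), ⟨hxi, by simp, by simp, by simp, by simp, ?_⟩, ?_⟩
        · simp only [QQ]
          have : (x⁻¹ ^ 2 * y) ^ 2 = x⁻¹ ^ 4 * y ^ 2 := by ring
          rw [this, hrel]
          field_simp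
        · have e1 : F1 P e (x⁻¹, 1, x⁻¹ ^ 2 * y, -1, 0) = x⁻¹ ^ 6 • gA L P e t := by
            rw [gA, ← W8_smul, F1]
            congr 1
            · ring
            · simp only
              rw [← hx]
              field_simp
            · simp only
              rw [← hx]
              field_simp
          -- T8 at the second chart
          have e2 : F2 L P e (x⁻¹, 1, x⁻¹ ^ 2 * y, -1, 0) =
              (x⁻¹ ^ 5 * x) • hA L P e t + (-(6 * x⁻¹ ^ 5)) • gA L P e t := by
            have e3 : gA L P e t = W8 (e * y ^ 3) (P.α + P.β * x) (P.γ + P.δ * x) := rfl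
            have e4 : hA L P e t = T8 (e * (3 / 2 * y * Qb L 1 x)) (P.α + P.β * x)
              (P.γ + P.δ * x) P.β P.δ := rfl
            rw [e3, e4]
            have hrel' : y ^ 2 = 4 * x ^ 3 - L.g₂ * x - L.g₃ := hrel
            have hyQ : e * y ^ 3 = e * (y * (4 * x ^ 3 - L.g₂ * x - L.g₃)) := by
              rw [← hrel']; ring
            ext i
            fin_cases i
            · simp only [F2, T8, W8, Qa, Qb]
              simp
              rw [hyQ]
              field_simp
              ring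
            all_goals
              simp only [F2, T8, W8]
              simp
              field_simp
              ring
          rw [e1, e2]
          exact hf.change (pow_ne_zero _ (inv_ne_zero hx0))
            (mul_ne_zero (pow_ne_zero _ (inv_ne_zero hx0)) hx0)

end Pool.Agent.R868.AEC
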