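import Pool.Agent.R868.AEC.Main

set_option autoImplicit false

open MvPolynomial Module Filter
open scoped LinearAlgebra.Projectivization Topology PeriodPair

namespace Pool.Agent.R868.AEC

open H667R3

lemma ne_zero_two {v : Fin 2 → ℂ} (h : v ≠ 0) : ¬ (v 0 = 0 ∧ v 1 = 0) := by
  rintro ⟨h0, h1⟩
  apply h
  ext i
  fin_cases i
  · exact h0
  · exact h1

lemma eq_of_det {x y : PS (Fin 2)} {v w : Fin 2 → ℂ} (hv : IsCoord x v) (hw : IsCoord y w)
    (h : v 0 * w 1 = v 1 * w 0) : x = y := by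
  rw [hv.eq_iff hw]
  by_cases h0 : v 0 = 0
  · have h1 : v 1 ≠ 0 := fun h1 => ne_zero_two hv.ne_zero ⟨h0, h1⟩
    have hw0 : w 0 = 0 := by
      rw [h0, zero_mul] at h
      exact (mul_eq_zero.1 h.symm).resolve_left h1
    have hw1 : w 1 ≠ 0 := fun h1 => ne_zero_two hw.ne_zero ⟨hw0, h1⟩
    refine ⟨w 1 / v 1, div_ne_zero hw1 h1, ?_⟩
    ext i
    fin_cases i
    · simp [h0, hw0]
    · simp [h1]
  · have hw0 : w 0 ≠ 0 := by
      intro hw0
      rw [hw0, mul_zero] at h
      exact ne_zero_two hw.ne_zero ⟨hw0, (mul_eq_zero.1 h).resolve_left h0⟩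
    refine ⟨w 0 / v 0, div_ne_zero hw0 h0, ?_⟩
    ext i
    fin_cases i
    · simp [h0]
    · show w 1 = (w 0 / v 0) * v 1
      rw [div_mul_eq_mul_div, eq_div_iff h0]
      linear_combination h

/-- the degenerate sextic embedding -/
noncomputable def j6 (x : PS (Fin 2)) : PS (Fin 8) :=
  Projectivization.mk ℂ (W8 0 (x.rep 0) (x.rep 1)) (W8_ne_zero (ne_zero_two x.rep_nonzero))

noncomputable def G6 : Fin 8 → MvPolynomial (Fin 2) ℂ :=
  ![0, X 0 ^ 6, X 0 ^ 5 * X 1, X 0 ^ 4 * X 1 ^ 2, X 0 ^ 3 * X 1 ^ 3, X 0 ^ 2 * X 1 ^ 4,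
    X 0 * X 1 ^ 5, X 1 ^ 6]

lemma eval_G6 (v : Fin 2 → ℂ) : (fun i => eval v (G6 i)) = W8 0 (v 0) (v 1) := by
  ext i
  fin_cases i <;> simp [G6, W8]

lemma isCoord_j6 {x : PS (Fin 2)} {v : Fin 2 → ℂ} (h : IsCoord x v) :
    IsCoord (j6 x) (W8 0 (v 0) (v 1)) := by
  obtain ⟨c, hc, rfl⟩ := (isCoord_rep x).smul_iff.1 h
  have h1 := (isCoord_mk (W8_ne_zero (x := 0) (ne_zero_two x.rep_nonzero))).smul_iff.2
    ⟨c ^ 6, pow_ne_zero 6 hc, rfl⟩
  rw [← W8_smul, mul_zero] at h1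
  exact h1

lemma isEmbedding_j6 : IsEmbedding j6 := by
  refine ⟨6, G6, ?_, ?_, ?_, ?_⟩
  · have h : ∀ a b : ℕ, a + b = 6 →
        (X 0 ^ a * X 1 ^ b : MvPolynomial (Fin 2) ℂ).IsHomogeneous 6 := by
      intro a b hab
      rw [← hab]
      exact (isHomogeneous_X_pow 0 a).mul (isHomogeneous_X_pow 1 b)
    intro i
    fin_cases i
    · exact isHomogeneous_zero _ _ _
    · simpa [G6] using h 6 0 rfl
    · simpa [G6] using h 5 1 rfl
    · simpa [G6] using h 4 2 rfl
    · simpa [G6] using h 3 3 rfl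
    · simpa [G6] using h 2 4 rfl
    · simpa [G6] using h 1 5 rfl
    · simpa [G6] using h 0 6 rfl
  · intro x v h
    rw [eval_G6]
    exact isCoord_j6 h
  · intro x y h
    have h1 := isCoord_j6 (isCoord_rep x)
    have h2 := isCoord_j6 (isCoord_rep y)
    obtain ⟨c, hc, h3⟩ := (h1.eq_iff h2).1 h
    have h4 := W8_par hc h3
    refine eq_of_det (isCoord_rep x) (isCoord_rep y) ?_
    linear_combination -h4
  · intro v w h
    have hd : v 0 * w 1 - v 1 * w 0 ≠ 0 := by
      obtain ⟨i, j, hij⟩ := linInd_iff_minor.1 h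
      fin_cases i <;> fin_cases j <;> simp at hij
      · exact hij
      · intro h0
        apply hij
        linear_combination -h0
    have e : (fun i => ∑ l, w l * eval v (pderiv l (G6 i))) = T8 0 (v 0) (v 1) (w 0) (w 1) := by
      ext i
      fin_cases i <;>
        simp [G6, T8, Fin.sum_univ_two, pderiv_X, Derivation.leibniz, Derivation.leibniz_pow,
          Pi.single_apply] <;> ring
    rw [eval_G6, e]
    exact W8_T8_linInd hd

lemma range_j6 : Set.range j6 = sext := by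
  ext x
  constructor
  · rintro ⟨y, rfl⟩
    exact ⟨_, _, isCoord_j6 (isCoord_rep y)⟩
  · rintro ⟨s, t, h⟩
    have hne : ¬ (s = 0 ∧ t = 0) := by
      rintro ⟨rfl, rfl⟩
      apply h.ne_zero
      ext i
      fin_cases i <;> simp [W8]
    have hv : (![s, t] : Fin 2 → ℂ) ≠ 0 := by
      intro h0
      exact hne ⟨by simpa using congrFun h0 0, by simpa using congrFun h0 1⟩
    refine ⟨Projectivization.mk ℂ ![s, t] hv, ?_⟩
    have := isCoord_j6 (isCoord_mk hv)
    simp only [Matrix.cons_val_zero, Matrix.cons_val_one] at this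
    exact this.unique h

/-- the line in `P^(m+1)` -/
noncomputable def lv {m : ℕ} (v : Fin 2 → ℂ) (i : Fin (m + 2)) : ℂ :=
  if i = 0 then v 0 else if i = 1 then v 1 else 0

lemma lv_ne_zero {m : ℕ} {v : Fin 2 → ℂ} (h : v ≠ 0) : (lv v : Fin (m + 2) → ℂ) ≠ 0 := by
  intro h0
  refine ne_zero_two h ⟨by simpa [lv] using congrFun h0 0, by simpa [lv] using congrFun h0 1⟩

noncomputable def j1 (m : ℕ) (x : PS (Fin 2)) : PS (Fin (m + 2)) :=
  Projectivization.mk ℂ (lv x.rep) (lv_ne_zero x.rep_nonzero)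

noncomputable def G1 (m : ℕ) (i : Fin (m + 2)) : MvPolynomial (Fin 2) ℂ :=
  if i = 0 then X 0 else if i = 1 then X 1 else 0

lemma eval_G1 (m : ℕ) (v : Fin 2 → ℂ) : (fun i => eval v (G1 m i)) = lv v := by
  ext i
  simp only [G1, lv]
  split_ifs <;> simp

lemma isCoord_j1 {m : ℕ} {x : PS (Fin 2)} {v : Fin 2 → ℂ} (h : IsCoord x v) :
    IsCoord (j1 m x) (lv v) := by
  obtain ⟨c, hc, rfl⟩ := (isCoord_rep x).smul_iff.1 h
  refine (isCoord_mk (lv_ne_zero x.rep_nonzero)).smul_iff.2 ⟨c, hc, ?_⟩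
  ext i
  simp only [lv, Pi.smul_apply, smul_eq_mul]
  split_ifs <;> simp

lemma isEmbedding_j1 (m : ℕ) : IsEmbedding (j1 m) := by
  refine ⟨1, G1 m, ?_, ?_, ?_, ?_⟩
  · intro i
    simp only [G1]
    split_ifs
    · exact isHomogeneous_X _ _
    · exact isHomogeneous_X _ _
    · exact isHomogeneous_zero _ _ _
  · intro x v h
    rw [eval_G1]
    exact isCoord_j1 h
  · intro x y h
    have h1 := isCoord_j1 (m := m) (isCoord_rep x)
    have h2 := isCoord_j1 (m := m) (isCoord_rep y)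
    obtain ⟨c, hc, h3⟩ := (h1.eq_iff h2).1 h
    have h4 := congrFun h3 0
    have h5 := congrFun h3 1
    simp [lv] at h4 h5
    refine eq_of_det (isCoord_rep x) (isCoord_rep y) ?_
    rw [h4, h5]; ring
  · intro v w h
    have e : (fun i => ∑ l, w l * eval v (pderiv l (G1 m i))) = lv w := by
      ext i
      simp only [G1, lv]
      split_ifs <;> simp [pderiv_X, Pi.single_apply]
    rw [eval_G1, e, linInd_iff_minor]
    have hd : v 0 * w 1 - v 1 * w 0 ≠ 0 := by
      obtain ⟨i, j, hij⟩ := linInd_iff_minor.1 h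
      fin_cases i <;> fin_cases j <;> simp at hij
      · exact hij
      · intro h0
        apply hij
        linear_combination -h0
    exact ⟨0, 1, by simpa [lv] using hd⟩

theorem not_conn_j1 (m : ℕ) : ¬ ApproxEllipticallyConnected (Set.range (j1 m)) := by
  apply line_not
  · have h : (![1, 0] : Fin 2 → ℂ) ≠ 0 := by
      intro h0
      simpa using congrFun h0 0
    exact ⟨_, Projectivization.mk ℂ _ h, rfl⟩
  · rintro _ ⟨y, rfl⟩ v hv i hi hi'
    obtain ⟨c, -, rfl⟩ := (isCoord_j1 (m := m) (isCoord_rep y)).smul_iff.1 hv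
    simp [lv, hi, hi']

theorem conn_j6 : ApproxEllipticallyConnected (Set.range j6) := by
  rw [range_j6]
  exact sext_conn (sq 1 one_ne_zero)

end Pool.Agent.R868.AEC
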