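import Pool.Agent.R868.AEC.Basic
import Pool.Agent.H667R3.W6

set_option autoImplicit false

open MvPolynomial Module Filter
open scoped LinearAlgebra.Projectivization Topology PeriodPair

namespace Pool.Agent.R868.AEC

/-- a point of the cone over the cone over the rational normal sextic -/
def W8 (x u v : ℂ) : Fin 8 → ℂ :=
  ![x, u ^ 6, u ^ 5 * v, u ^ 4 * v ^ 2, u ^ 3 * v ^ 3, u ^ 2 * v ^ 4, u * v ^ 5, v ^ 6]

/-- its derivative -/
def T8 (x u v du dv : ℂ) : Fin 8 → ℂ :=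
  ![x, 6 * u ^ 5 * du, 5 * u ^ 4 * v * du + u ^ 5 * dv, 4 * u ^ 3 * v ^ 2 * du + 2 * u ^ 4 * v * dv,
    3 * u ^ 2 * v ^ 3 * du + 3 * u ^ 3 * v ^ 2 * dv, 2 * u * v ^ 4 * du + 4 * u ^ 2 * v ^ 3 * dv,
    v ^ 5 * du + 5 * u * v ^ 4 * dv, 6 * v ^ 5 * dv]

lemma W8_ne_zero {x u v : ℂ} (h : ¬ (u = 0 ∧ v = 0)) : W8 x u v ≠ 0 := by
  intro h0
  apply h
  have h1 := congrFun h0 1
  have h2 := congrFun h0 7
  simp [W8] at h1 h2
  exact ⟨h1, h2⟩

lemma W8_smul (x u v c : ℂ) : W8 (c ^ 6 * x) (c * u) (c * v) = c ^ 6 • W8 x u v := by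
  ext i
  fin_cases i <;> simp [W8] <;> ring

lemma T8_smul (x u v du dv c : ℂ) :
    T8 (c ^ 5 * x) (c * u) (c * v) du dv = c ^ 5 • T8 x u v du dv := by
  ext i
  fin_cases i <;> simp [T8] <;> ring

lemma T8_lin (x y u v du dv du' dv' c d : ℂ) :
    T8 (c * x + d * y) u v (c * du + d * du') (c * dv + d * dv') =
      c • T8 x u v du dv + d • T8 y u v du' dv' := by
  ext i
  fin_cases i <;> simp [T8] <;> ring

lemma T8_euler (x u v : ℂ) : T8 (6 * x) u v u v = (6 : ℂ) • W8 x u v := by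
  ext i
  fin_cases i <;> simp [T8, W8] <;> ring

lemma W8_par {x x' u v u' v' κ : ℂ} (hκ : κ ≠ 0) (h : W8 x' u' v' = κ • W8 x u v) :
    u' * v = u * v' := by
  have h1 := congrFun h 1
  have h2 := congrFun h 2
  simp [W8] at h1 h2
  by_cases hu : u = 0
  · rw [hu] at h1 h2
    have : u' = 0 := by simpa using h1
    rw [hu, this]; ring
  · have hu' : u' ≠ 0 := by
      rintro rfl
      simp [hκ, hu] at h1
    have h3 : u' ^ 5 * u ^ 5 * (v' * u) = u' ^ 5 * u ^ 5 * (v * u') := by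
      linear_combination u ^ 6 * h2 - u ^ 5 * v * h1
    have := mul_left_cancel₀ (mul_ne_zero (pow_ne_zero 5 hu') (pow_ne_zero 5 hu)) h3
    linear_combination -this

/-- independence -/
lemma W8_T8_linInd {x y u v du dv : ℂ} (h : u * dv - v * du ≠ 0) :
    LinearIndependent ℂ ![W8 x u v, T8 y u v du dv] := by
  rw [linInd_iff_minor]
  by_cases hu : u = 0
  · refine ⟨6, 7, ?_⟩
    simp [W8, T8]
    have hv : v ≠ 0 := by rintro rfl; simp [hu] at h
    rw [hu] at h ⊢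
    have : v ^ 6 * (v ^ 4 * (v * du)) ≠ 0 := by
      refine mul_ne_zero (pow_ne_zero _ hv) (mul_ne_zero (pow_ne_zero _ hv) ?_)
      intro h0; apply h; linear_combination -h0
    intro h0
    apply this
    linear_combination -h0
  · refine ⟨1, 2, ?_⟩
    simp [W8, T8]
    have : u ^ 10 * (u * dv - v * du) ≠ 0 := mul_ne_zero (pow_ne_zero _ hu) h
    intro h0
    apply this
    linear_combination h0

lemma hasDerivAt_W8 {x u v : ℂ → ℂ} {t x' u' v' : ℂ} (hx : HasDerivAt x x' t)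
    (hu : HasDerivAt u u' t) (hv : HasDerivAt v v' t) :
    HasDerivAt (fun s => W8 (x s) (u s) (v s)) (T8 x' (u t) (v t) u' v') t := by
  rw [hasDerivAt_pi]
  intro i
  fin_cases i
  · simpa [W8, T8] using hx
  · refine (hu.pow 6).congr_deriv ?_
    simp [T8]
  · refine ((hu.pow 5).mul hv).congr_deriv ?_
    simp [T8]; ring
  · refine (((hu.pow 4).mul (hv.pow 2))).congr_deriv ?_
    simp [T8]; ring
  · refine (((hu.pow 3).mul (hv.pow 3))).congr_deriv ?_
    simp [T8]; ring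
  · refine (((hu.pow 2).mul (hv.pow 4))).congr_deriv ?_
    simp [T8]; ring
  · refine ((hu.mul (hv.pow 5))).congr_deriv ?_
    simp [T8]; ring
  · refine (hv.pow 6).congr_deriv ?_
    simp [T8]

end Pool.Agent.R868.AEC
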