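import Pool.Agent.R868.AEC.Clos
import Pool.Agent.R868.AEC.Ver

set_option autoImplicit false

open MvPolynomial Module Filter
open scoped LinearAlgebra.Projectivization Topology PeriodPair

namespace Pool.Agent.R868.AEC

/-- coefficients of an invertible linear change of coordinates -/
structure Par where
  α : ℂ
  β : ℂ
  γ : ℂ
  δ : ℂ
  ne : α * δ - β * γ ≠ 0

variable (L : PeriodPair) (P : Par)

noncomputable def QQ (a b : ℂ) : ℂ := 4 * a * b ^ 3 - L.g₂ * a ^ 3 * b - L.g₃ * a ^ 4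
noncomputable def Qa (a b : ℂ) : ℂ := 4 * b ^ 3 - 3 * L.g₂ * a ^ 2 * b - 4 * L.g₃ * a ^ 3
noncomputable def Qb (a b : ℂ) : ℂ := 12 * a * b ^ 2 - L.g₂ * a ^ 3

/-- the parameters `(a, b, c, p, q)` -/
abbrev K5 : Type := ℂ × ℂ × ℂ × ℂ × ℂ

def KK : Set K5 := {k | ‖k.1‖ ≤ 1 ∧ ‖k.2.1‖ ≤ 1 ∧ ‖k.2.2.2.1‖ ≤ 1 ∧ ‖k.2.2.2.2‖ ≤ 1 ∧
  k.1 * k.2.2.2.2 - k.2.1 * k.2.2.2.1 = 1 ∧ k.2.2.1 ^ 2 = QQ L k.1 k.2.1}

lemma isCompact_KK : IsCompact (KK L) := by
  refine Metric.isCompact_of_isClosed_isBounded ?_ ?_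
  · have hQ : Continuous fun k : K5 => QQ L k.1 k.2.1 := by
      unfold QQ; fun_prop
    have h1 : IsClosed {k : K5 | ‖k.1‖ ≤ 1} := isClosed_le (by fun_prop) (by fun_prop)
    have h2 : IsClosed {k : K5 | ‖k.2.1‖ ≤ 1} := isClosed_le (by fun_prop) (by fun_prop)
    have h3 : IsClosed {k : K5 | ‖k.2.2.2.1‖ ≤ 1} := isClosed_le (by fun_prop) (by fun_prop)
    have h4 : IsClosed {k : K5 | ‖k.2.2.2.2‖ ≤ 1} := isClosed_le (by fun_prop) (by fun_prop)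
    have h5 : IsClosed {k : K5 | k.1 * k.2.2.2.2 - k.2.1 * k.2.2.2.1 = 1} :=
      isClosed_eq (by fun_prop) (by fun_prop)
    have h6 : IsClosed {k : K5 | k.2.2.1 ^ 2 = QQ L k.1 k.2.1} :=
      isClosed_eq (by fun_prop) hQ
    exact h1.inter (h2.inter (h3.inter (h4.inter (h5.inter h6))))
  · rw [isBounded_iff_forall_norm_le]
    refine ⟨5 + ‖L.g₂‖ + ‖L.g₃‖, ?_⟩
    rintro ⟨a, b, c, p, q⟩ ⟨ha, hb, hp, hq, -, hc⟩
    simp only at ha hb hp hq hc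
    have g2 := norm_nonneg L.g₂
    have g3 := norm_nonneg L.g₃
    have h1 : ‖c‖ ^ 2 ≤ 4 + ‖L.g₂‖ + ‖L.g₃‖ := by
      rw [← norm_pow, hc, QQ]
      have e1 : ‖4 * a * b ^ 3‖ ≤ 4 := by
        rw [norm_mul, norm_mul, norm_pow]
        have : ‖(4 : ℂ)‖ = 4 := by simp
        rw [this]
        have h2 : ‖b‖ ^ 3 ≤ 1 := pow_le_one₀ (norm_nonneg _) hb
        have h3 : ‖a‖ * ‖b‖ ^ 3 ≤ 1 := mul_le_one₀ ha (by positivity) h2
        linarith
      have e2 : ‖L.g₂ * a ^ 3 * b‖ ≤ ‖L.g₂‖ := by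
        rw [norm_mul, norm_mul, norm_pow]
        have h2 : ‖a‖ ^ 3 ≤ 1 := pow_le_one₀ (norm_nonneg _) ha
        have h3 : ‖a‖ ^ 3 * ‖b‖ ≤ 1 := mul_le_one₀ h2 (by positivity) hb
        nlinarith
      have e3 : ‖L.g₃ * a ^ 4‖ ≤ ‖L.g₃‖ := by
        rw [norm_mul, norm_pow]
        have h2 : ‖a‖ ^ 4 ≤ 1 := pow_le_one₀ (norm_nonneg _) ha
        nlinarith
      calc _ ≤ ‖4 * a * b ^ 3 - L.g₂ * a ^ 3 * b‖ + ‖L.g₃ * a ^ 4‖ := norm_sub_le _ _
        _ ≤ (‖4 * a * b ^ 3‖ + ‖L.g₂ * a ^ 3 * b‖) + ‖L.g₃ * a ^ 4‖ := by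
          gcongr; exact norm_sub_le _ _
        _ ≤ _ := by linarith
    have h2 : ‖c‖ ≤ 5 + ‖L.g₂‖ + ‖L.g₃‖ := by
      nlinarith [norm_nonneg c]
    simp only [Prod.norm_def, sup_le_iff]
    refine ⟨by linarith, by linarith, h2, by linarith, by linarith⟩

noncomputable def F1 (e : ℂ) (k : K5) : Fin 8 → ℂ :=
  W8 (e * k.2.2.1 ^ 3) (P.α * k.1 + P.β * k.2.1) (P.γ * k.1 + P.δ * k.2.1)

noncomputable def F2 (e : ℂ) (k : K5) : Fin 8 → ℂ :=
  T8 (e * (3 / 2 * k.2.2.1 * (k.2.2.2.1 * Qa L k.1 k.2.1 + k.2.2.2.2 * Qb L k.1 k.2.1)))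
    (P.α * k.1 + P.β * k.2.1) (P.γ * k.1 + P.δ * k.2.1)
    (P.α * k.2.2.2.1 + P.β * k.2.2.2.2) (P.γ * k.2.2.2.1 + P.δ * k.2.2.2.2)

lemma continuous_W8 {X : Type} [TopologicalSpace X] {f g h : X → ℂ} (hf : Continuous f)
    (hg : Continuous g) (hh : Continuous h) : Continuous fun x => W8 (f x) (g x) (h x) := by
  refine continuous_pi fun i => ?_
  fin_cases i <;> simp [W8] <;> fun_prop

lemma continuous_T8 {X : Type} [TopologicalSpace X] {f g h g' h' : X → ℂ} (hf : Continuous f)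
    (hg : Continuous g) (hh : Continuous h) (hg' : Continuous g') (hh' : Continuous h') :
    Continuous fun x => T8 (f x) (g x) (h x) (g' x) (h' x) := by
  refine continuous_pi fun i => ?_
  fin_cases i <;> simp [T8] <;> fun_prop

lemma continuous_F1 : Continuous fun z : ℂ × K5 => F1 P z.1 z.2 :=
  continuous_W8 (by fun_prop) (by fun_prop) (by fun_prop)

lemma continuous_F2 : Continuous fun z : ℂ × K5 => F2 L P z.1 z.2 := by
  refine continuous_T8 ?_ (by fun_prop) (by fun_prop) (by fun_prop) (by fun_prop)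
  unfold Qa Qb
  fun_prop

/-- The rational normal curve of degree six, in a hyperplane of a projective space of dimension
seven. -/
def sext : Set (PS (Fin 8)) := {x | ∃ s t : ℂ, IsCoord x (W8 0 s t)}

lemma frame_sext {s t ds dt : ℂ} (h : s * dt - t * ds ≠ 0) :
    (W8 0 s t, T8 0 s t ds dt) ∈ frames (tangentDirections sext) := by
  obtain ⟨p, hp⟩ := exists_isFrame (W8_T8_linInd (x := 0) (y := 0) h)
  refine ⟨p, ⟨fun τ => W8 0 (s + τ * ds) (t + τ * dt), ?_, ?_, ?_⟩, hp⟩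
  · have h1 : ∀ τ : ℂ, HasDerivAt (fun τ => W8 0 (s + τ * ds) (t + τ * dt))
        (T8 0 (s + τ * ds) (t + τ * dt) ds dt) τ := by
      intro τ
      refine hasDerivAt_W8 (hasDerivAt_const τ (0 : ℂ)) ?_ ?_
      · simpa using ((hasDerivAt_id τ).mul_const ds).const_add s
      · simpa using ((hasDerivAt_id τ).mul_const dt).const_add t
    exact Differentiable.analyticAt (fun τ => (h1 τ).differentiableAt) 0
  · have h2 : ∀ᶠ τ in 𝓝 (0 : ℂ), (s + τ * ds) * dt - (t + τ * dt) * ds ≠ 0 := by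
      have h3 : ContinuousAt (fun τ : ℂ => (s + τ * ds) * dt - (t + τ * dt) * ds) 0 := by fun_prop
      exact h3.eventually_ne (by simpa using h)
    filter_upwards [h2] with τ hτ
    have h4 : W8 0 (s + τ * ds) (t + τ * dt) ≠ 0 := W8_ne_zero (by
      rintro ⟨h5, h6⟩
      rw [h5, h6] at hτ
      simp at hτ)
    exact ⟨_, ⟨_, _, isCoord_mk h4⟩, isCoord_mk h4⟩
  · have h1 : HasDerivAt (fun τ => W8 0 (s + τ * ds) (t + τ * dt))
        (T8 0 s t ds dt) 0 := by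
      have := hasDerivAt_W8 (x := fun _ => 0) (u := fun τ => s + τ * ds) (v := fun τ => t + τ * dt)
        (hasDerivAt_const (0 : ℂ) (0 : ℂ)) (u' := ds) (v' := dt) (by
        simpa using ((hasDerivAt_id (0 : ℂ)).mul_const ds).const_add s)
        (by simpa using ((hasDerivAt_id (0 : ℂ)).mul_const dt).const_add t)
      simpa using this
    rw [h1.deriv]
    simpa using hp

lemma exists_small {V : Set (PS (Fin 8))} (hV : IsOpenSet V) (hXV : sext ⊆ V)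
    {W : Set (PS (Fin 8) × Submodule ℂ (Fin 8 → ℂ))} (hW : IsOpenDirs W)
    (hXW : tangentDirections sext ⊆ W) :
    ∃ e : ℂ, e ≠ 0 ∧ ∀ k ∈ KK L, (∃ x ∈ V, IsCoord x (F1 P e k)) ∧
      (F1 P e k, F2 L P e k) ∈ frames W := by
  have h1 : ∀ k ∈ KK L, ∀ᶠ z : ℂ × K5 in 𝓝 ((0 : ℂ), k),
      (∃ x ∈ V, IsCoord x (F1 P z.1 z.2)) ∧ (F1 P z.1 z.2, F2 L P z.1 z.2) ∈ frames W := by
    intro k hk
    have hdet : (P.α * k.1 + P.β * k.2.1) * (P.γ * k.2.2.2.1 + P.δ * k.2.2.2.2) -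
        (P.γ * k.1 + P.δ * k.2.1) * (P.α * k.2.2.2.1 + P.β * k.2.2.2.2) ≠ 0 := by
      have : (P.α * k.1 + P.β * k.2.1) * (P.γ * k.2.2.2.1 + P.δ * k.2.2.2.2) -
        (P.γ * k.1 + P.δ * k.2.1) * (P.α * k.2.2.2.1 + P.β * k.2.2.2.2) =
        (P.α * P.δ - P.β * P.γ) * (k.1 * k.2.2.2.2 - k.2.1 * k.2.2.2.1) := by ring
      rw [this, hk.2.2.2.2.1, mul_one]
      exact P.ne
    have e1 : F1 P 0 k = W8 0 (P.α * k.1 + P.β * k.2.1) (P.γ * k.1 + P.δ * k.2.1) := by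
      simp [F1]
    have e2 : F2 L P 0 k = T8 0 (P.α * k.1 + P.β * k.2.1) (P.γ * k.1 + P.δ * k.2.1)
        (P.α * k.2.2.2.1 + P.β * k.2.2.2.2) (P.γ * k.2.2.2.1 + P.δ * k.2.2.2.2) := by
      simp [F2]
    refine Filter.Eventually.and ?_ ?_
    · refine (continuous_F1 P).continuousAt.eventually (hV.mem_nhds ?_)
      have h2 : F1 P 0 k ≠ 0 := by
        rw [e1]
        refine W8_ne_zero ?_
        rintro ⟨h5, h6⟩
        rw [h5, h6] at hdet
        simp at hdet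
      have h3 := isCoord_mk h2
      exact ⟨_, hXV ⟨_, _, by rw [← e1]; exact h3⟩, h3⟩
    · refine ((continuous_F1 P).prodMk (continuous_F2 L P)).continuousAt.eventually
        (hW.mem_nhds ?_)
      obtain ⟨p, hp, hf⟩ := frame_sext hdet
      refine ⟨p, hXW hp, ?_⟩
      simp only
      rw [e1, e2]
      exact hf
  have h2 := (isCompact_KK L).eventually_forall_of_forall_eventually
    (P := fun (e : ℂ) (k : K5) => (∃ x ∈ V, IsCoord x (F1 P e k)) ∧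
      (F1 P e k, F2 L P e k) ∈ frames W) (x₀ := (0 : ℂ)) h1
  obtain ⟨e, he, he0⟩ := ((h2.filter_mono nhdsWithin_le_nhds).and
    (self_mem_nhdsWithin : {x : ℂ | x ≠ 0} ∈ 𝓝[≠] (0 : ℂ))).exists
  exact ⟨e, he0, he⟩

end Pool.Agent.R868.AEC
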