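import Pool.Agent.R868.AEC.Neg

set_option autoImplicit false

open MvPolynomial Module Filter
open scoped LinearAlgebra.Projectivization Topology

namespace Pool.Agent.R868.AEC

/-- A set which is contained in a line and is not empty is not approximately elliptically
connected. -/
theorem line_not {m : ℕ} {X : Set (PS (Fin (m + 2)))} (hne : X.Nonempty)
    (hX : ∀ x ∈ X, ∀ v, IsCoord x v → ∀ i : Fin (m + 2), i ≠ 0 → i ≠ 1 → v i = 0) :
    ¬ ApproxEllipticallyConnected X := by
  intro h
  have hV : IsOpenSet (Set.univ : Set (PS (Fin (m + 2)))) := by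
    have e : {v : Fin (m + 2) → ℂ | ∃ x ∈ (Set.univ : Set (PS (Fin (m + 2)))), IsCoord x v} =
        {0}ᶜ := by
      ext v
      constructor
      · rintro ⟨x, -, hv⟩
        exact hv.ne_zero
      · intro hv
        exact ⟨_, Set.mem_univ _, isCoord_mk hv⟩
    rw [IsOpenSet, e]
    exact isOpen_compl_singleton
  have hT : tangentDirections X ⊆ lineNhd m := by
    rintro p ⟨γ, hγ, hX', hp⟩
    have h0 : ∀ᶠ t in 𝓝 (0 : ℂ), ∀ i : Fin (m + 2), i ≠ 0 → i ≠ 1 → γ t i = 0 := by
      filter_upwards [hX'] with t ⟨x, hx, hc⟩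
      exact hX x hx _ hc
    have h1 : ∀ i : Fin (m + 2), i ≠ 0 → i ≠ 1 → γ 0 i = 0 := h0.self_of_nhds
    have h2 : ∀ i : Fin (m + 2), i ≠ 0 → i ≠ 1 → deriv γ 0 i = 0 := by
      intro i hi hi'
      rw [← (deriv_comp_apply hγ i).deriv]
      have e : (fun s => γ s i) =ᶠ[𝓝 0] fun _ => 0 := by
        filter_upwards [h0] with t ht
        exact ht i hi hi'
      rw [e.deriv_eq]
      simp
    have h3 : γ 0 0 * deriv γ 0 1 - γ 0 1 * deriv γ 0 0 ≠ 0 := by
      intro hz
      obtain ⟨i, j, hij⟩ := linInd_iff_minor.1 hp.1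
      apply hij
      by_cases hi : i = 0
      · by_cases hj : j = 1
        · rw [hi, hj]; exact hz
        · by_cases hj0 : j = 0
          · rw [hi, hj0]; ring
          · rw [h1 j hj0 hj, h2 j hj0 hj]; ring
      · by_cases hi1 : i = 1
        · by_cases hj : j = 1
          · rw [hi1, hj]; ring
          · by_cases hj0 : j = 0
            · rw [hi1, hj0]; linear_combination -hz
            · rw [h1 j hj0 hj, h2 j hj0 hj]; ring
        · rw [h1 i hi hi1, h2 i hi hi1]; ring
    have h4 : (γ 0, deriv γ 0) ∈ frames (lineNhd m) := by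
      rw [frames_lineNhd]
      intro i j
      have h5 : 0 < ‖γ 0 0 * deriv γ 0 1 - γ 0 1 * deriv γ 0 0‖ := norm_pos_iff.2 h3
      by_cases hi : i = 0
      · by_cases hj : j = 1
        · simp only [hi, hj]; linarith
        · by_cases hj0 : j = 0
          · simp only [hi, hj0, sub_self, norm_zero]; linarith
          · simp only [h1 j hj0 hj, h2 j hj0 hj, mul_zero, zero_mul, sub_self, norm_zero]; linarith
      · by_cases hi1 : i = 1
        · by_cases hj : j = 1
          · simp only [hi1, hj, sub_self, norm_zero]; linarith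
          · by_cases hj0 : j = 0
            · simp only [hi1, hj0]
              rw [norm_sub_rev]; linarith
            · simp only [h1 j hj0 hj, h2 j hj0 hj, mul_zero, zero_mul, sub_self, norm_zero]
              linarith
        · simp only [h1 i hi hi1, h2 i hi hi1, mul_zero, zero_mul, sub_self, norm_zero]; linarith
    obtain ⟨p', hp', hf⟩ := h4
    rwa [hp.unique hf]
  obtain ⟨k, d, n, -, hpos, h⟩ := h _ hV (Set.subset_univ _) _ (isOpenDirs_lineNhd m) hT
  obtain ⟨x, hx⟩ := hne
  cases k with
  | zero => simp at hpos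
  | succ k =>
    obtain ⟨L, φ, hE, -, -, -, hW⟩ := h x hx 0
    exact no_elliptic hE hW

end Pool.Agent.R868.AEC
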