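import Pool.Agent.R868.AEC.Deg2
import Pool.Agent.R868.AEC.Line

set_option autoImplicit false

open MvPolynomial Module Filter
open scoped LinearAlgebra.Projectivization Topology PeriodPair

namespace Pool.Agent.R868.AEC

open H667R3

/-- The rational normal sextic in a hyperplane of `P⁷` is approximately elliptically connected. -/
theorem sext_conn (L : PeriodPair) : ApproxEllipticallyConnected sext := by
  intro V hV hXV W hW hXW
  refine ⟨1, fun _ => 12, fun _ => 1, fun _ => one_pos, by simp, fun x hx _ => ?_⟩
  obtain ⟨β, δ, hβδ⟩ := hx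
  have hne : ¬ (β = 0 ∧ δ = 0) := by
    rintro ⟨rfl, rfl⟩
    apply hβδ.ne_zero
    ext i
    fin_cases i <;> simp [W8]
  -- an invertible change of coordinates
  have hpar : ∃ P : Par, P.β = β ∧ P.δ = δ := by
    by_cases hβ : β = 0
    · exact ⟨⟨1, β, 0, δ, by
        have : δ ≠ 0 := fun h => hne ⟨hβ, h⟩
        simpa [hβ] using this⟩, rfl, rfl⟩
    · exact ⟨⟨0, β, 1, δ, by simpa using hβ⟩, rfl, rfl⟩
  obtain ⟨P, rfl, rfl⟩ := hpar
  obtain ⟨e, he, hk⟩ := exists_small L P hV hXV hW hXW
  refine ⟨L, crv L P e, isElliptic_crv L P he, hasDegree_crv L P e, ?_, ?_, ?_⟩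
  · exact ⟨0, (crv_coord_mem L P e L.lattice.zero_mem).unique hβδ⟩
  · rintro _ ⟨t, rfl⟩
    -- the point belongs to the compact family
    obtain ⟨k, hkK, hkc⟩ : ∃ k ∈ KK L, IsCoord (crv L P e t) (F1 P e k) := by
      by_cases ht : t ∈ L.lattice
      · refine ⟨(0, 1, 0, -1, 0), ⟨by simp, by simp, by simp, by simp, by simp, by simp [QQ]⟩, ?_⟩
        have := crv_coord_mem L P e ht
        convert this using 1
        simp [F1]
      · have hrel := L.derivWeierstrassP_sq t ht
        by_cases hb : ‖℘[L] t‖ ≤ 1
        · refine ⟨(1, ℘[L] t, ℘'[L] t, 0, 1), ⟨by simp, hb, by simp, by simp, by simp, ?_⟩, ?_⟩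
          · simp only [QQ]
            rw [hrel]; ring
          · have := crv_coord_notMem L P e ht
            convert this using 1
            simp [F1, gA]
        · push Not at hb
          set x := ℘[L] t with hx
          set y := ℘'[L] t with hy
          have hx0 : x ≠ 0 := by
            intro h0; rw [h0] at hb; simp at hb; linarith
          have hxi : ‖x⁻¹‖ ≤ 1 := by
            rw [norm_inv]
            exact inv_le_one_of_one_le₀ hb.le
          refine ⟨(x⁻¹, 1, x⁻¹ ^ 2 * y, -1, 0), ⟨hxi, by simp, by simp, by simp, by simp, ?_⟩, ?_⟩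
          · simp only [QQ]
            have : (x⁻¹ ^ 2 * y) ^ 2 = x⁻¹ ^ 4 * y ^ 2 := by ring
            rw [this, hrel]
            field_simp
          · have e1 : F1 P e (x⁻¹, 1, x⁻¹ ^ 2 * y, -1, 0) = x⁻¹ ^ 6 • gA L P e t := by
              rw [gA, ← W8_smul, F1]
              congr 1
              · ring
              · simp only
                rw [← hx]
                field_simp
              · simp only
                rw [← hx]
                field_simp
            rw [e1]
            exact (crv_coord_notMem L P e ht).smul_iff.2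
              ⟨_, pow_ne_zero _ (inv_ne_zero hx0), rfl⟩
    obtain ⟨x, hx, hxc⟩ := (hk k hkK).1
    rwa [hkc.unique hxc]
  · intro p hp
    have hcont : Continuous fun k : K5 => F1 P e k :=
      (continuous_F1 P).comp (by fun_prop : Continuous fun k : K5 => (e, k))
    have hcont2 : Continuous fun k : K5 => F2 L P e k :=
      (continuous_F2 L P).comp (by fun_prop : Continuous fun k : K5 => (e, k))
    obtain ⟨k, hkK, hf⟩ := closure_family (isCompact_KK L) hcont hcont2
      (fun k hkK => by
        obtain ⟨p', -, hp'⟩ := (hk k hkK).2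
        exact hp'.1)
      (D := {p | ∃ t g, IsLift (crv L P e) t g ∧ IsFrame p (g t) (deriv g t)})
      (fun p ⟨t, g, hg, hp⟩ => dir_mem L P e hg hp) p hp
    obtain ⟨p', hp', hf'⟩ := (hk k hkK).2
    rwa [hf.unique hf']

end Pool.Agent.R868.AEC
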