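import Pool.Agent.R868.AEC.Basic

set_option autoImplicit false

open MvPolynomial Module Filter
open scoped LinearAlgebra.Projectivization Topology

namespace Pool.Agent.R868.AEC

lemma ev_punctured {p : ℂ → Prop} {t : ℂ} (h : ∀ᶠ s in 𝓝[≠] t, p s) :
    ∀ᶠ s in 𝓝[≠] t, ∀ᶠ x in 𝓝 s, p x := by
  have h5 := eventually_eventually_nhdsWithin.2 h
  filter_upwards [h5, self_mem_nhdsWithin] with s hs hs3
  have : 𝓝[({t}ᶜ : Set ℂ)] s = 𝓝 s := isOpen_compl_singleton.nhdsWithin_eq hs3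
  rwa [this] at hs

/-- A bounded meromorphic function on the plane is constant. -/
lemma liouville_mero {f : ℂ → ℂ} (hf : ∀ t, MeromorphicAt f t) {C : ℝ}
    (hC : ∀ t, ∀ᶠ s in 𝓝[≠] t, ‖f s‖ ≤ C) : ∃ c, ∀ t, ∀ᶠ s in 𝓝[≠] t, f s = c := by
  have h1 : ∀ t, ∃ g : ℂ → ℂ, AnalyticAt ℂ g t ∧ f =ᶠ[𝓝[≠] t] g := by
    intro t
    rw [← (hf t).meromorphicOrderAt_nonneg_iff]
    by_contra hneg
    have h2 := tendsto_cobounded_of_meromorphicOrderAt_neg (not_le.1 hneg)
    have h3 : Tendsto (fun s => ‖f s‖) (𝓝[≠] t) atTop := tendsto_norm_cobounded_atTop.comp h2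
    obtain ⟨s, h4, h5⟩ := ((hC t).and (h3.eventually_gt_atTop C)).exists
    exact absurd h4 (not_le.2 h5)
  choose g hg1 hg2 using h1
  set F : ℂ → ℂ := fun t => g t t with hF
  have h3 : ∀ t, F =ᶠ[𝓝 t] g t := by
    intro t
    have h4 : F =ᶠ[𝓝[≠] t] g t := by
      have h6 : ∀ᶠ s in 𝓝[≠] t, ContinuousAt (g t) s :=
        ((hg1 t).eventually_analyticAt.mono fun s hs => hs.continuousAt).filter_mono
          nhdsWithin_le_nhds
      filter_upwards [ev_punctured (hg2 t), h6] with s h7 hs2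
      have h8 : g s =ᶠ[𝓝[≠] s] g t := (hg2 s).symm.trans (EventuallyEq.filter_mono h7
        nhdsWithin_le_nhds)
      have h9 : g s =ᶠ[𝓝 s] g t :=
        ((hg1 s).continuousAt.eventuallyEq_nhds_iff_eventuallyEq_nhdsNE hs2).1 h8
      exact h9.eq_of_nhds
    exact eventuallyEq_nhds_of_eventuallyEq_nhdsNE h4 rfl
  have h4 : Differentiable ℂ F := fun t => ((hg1 t).congr (h3 t).symm).differentiableAt
  have h5 : ∀ t, ‖F t‖ ≤ C := by
    intro t
    have h6 : Tendsto (fun s => ‖g t s‖) (𝓝[≠] t) (𝓝 ‖g t t‖) :=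
      ((hg1 t).continuousAt.norm.tendsto).mono_left nhdsWithin_le_nhds
    refine le_of_tendsto h6 ?_
    filter_upwards [hC t, hg2 t] with s hs hs2
    rwa [← hs2]
  refine ⟨F 0, fun t => ?_⟩
  filter_upwards [hg2 t, (h3 t).filter_mono nhdsWithin_le_nhds] with s hs hs2
  rw [hs, ← hs2]
  refine h4.apply_eq_apply_of_bounded ?_ s 0
  rw [isBounded_iff_forall_norm_le]
  exact ⟨C, by rintro _ ⟨t, rfl⟩; exact h5 t⟩

variable {m : ℕ} {L : PeriodPair} {φ : ℂ → PS (Fin (m + 2))}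

/-- The tangent directions which are close to the line `x_2 = ... = 0`. -/
def lineNhd (m : ℕ) : Set (PS (Fin (m + 2)) × Submodule ℂ (Fin (m + 2) → ℂ)) :=
  {p | ∀ v w, IsFrame p v w → ∀ i j, ‖v i * w j - v j * w i‖ < 2 * ‖v 0 * w 1 - v 1 * w 0‖}

lemma frames_lineNhd (m : ℕ) : frames (lineNhd m) =
    {q | ∀ i j, ‖q.1 i * q.2 j - q.1 j * q.2 i‖ < 2 * ‖q.1 0 * q.2 1 - q.1 1 * q.2 0‖} := by
  ext q
  constructor
  · rintro ⟨p, hp, hq⟩
    exact hp _ _ hq
  · intro hq
    have h1 : LinearIndependent ℂ ![q.1, q.2] := by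
      rw [linInd_iff_minor]
      refine ⟨0, 1, fun h => ?_⟩
      have := hq 0 1
      rw [h] at this
      simp at this
    obtain ⟨p, hp⟩ := exists_isFrame h1
    refine ⟨p, fun v w hvw i j => ?_, hp⟩
    obtain ⟨a, b, c, ha, hb, rfl, rfl⟩ := hp.exists hvw
    have e : ∀ i j, (a • q.1) i * (b • q.2 + c • q.1) j - (a • q.1) j * (b • q.2 + c • q.1) i =
        (a * b) * (q.1 i * q.2 j - q.1 j * q.2 i) := by
      intro i j
      simp only [Pi.smul_apply, Pi.add_apply, smul_eq_mul]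
      ring
    rw [e, e, norm_mul, norm_mul (a * b)]
    have h2 : 0 < ‖a * b‖ := norm_pos_iff.2 (mul_ne_zero ha hb)
    nlinarith [hq i j]

lemma isOpenDirs_lineNhd (m : ℕ) : IsOpenDirs (lineNhd m) := by
  rw [IsOpenDirs, frames_lineNhd]
  simp only [Set.ofPred_forall]
  refine isOpen_iInter_of_finite fun i => isOpen_iInter_of_finite fun j => ?_
  exact isOpen_lt (by fun_prop) (by fun_prop)

/-- the minors of a lift -/
noncomputable def mnr (g : ℂ → Fin (m + 2) → ℂ) (i j : Fin (m + 2)) (s : ℂ) : ℂ :=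
  g s i * deriv g s j - g s j * deriv g s i

lemma analyticAt_comp {g : ℂ → Fin (m + 2) → ℂ} {t : ℂ} (hg : AnalyticAt ℂ g t) (i : Fin (m + 2)) :
    AnalyticAt ℂ (fun s => g s i) t :=
  (ContinuousLinearMap.proj (R := ℂ) (φ := fun _ : Fin (m + 2) => ℂ) i).analyticAt _ |>.comp hg

lemma analyticAt_mnr {g : ℂ → Fin (m + 2) → ℂ} {t : ℂ} (hg : AnalyticAt ℂ g t)
    (i j : Fin (m + 2)) : AnalyticAt ℂ (mnr g i j) t :=
  ((analyticAt_comp hg i).mul (analyticAt_comp hg.deriv j)).sub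
    ((analyticAt_comp hg j).mul (analyticAt_comp hg.deriv i))

lemma deriv_comp_apply {g : ℂ → Fin (m + 2) → ℂ} {t : ℂ} (hg : AnalyticAt ℂ g t)
    (i : Fin (m + 2)) : HasDerivAt (fun s => g s i) (deriv g t i) t :=
  hasDerivAt_pi.1 hg.differentiableAt.hasDerivAt i

lemma ev_notMem (L : PeriodPair) (x y : ℂ) : ∀ᶠ s in 𝓝[≠] x, s - y ∉ L.lattice := by
  have h := L.compl_lattice_sdiff_singleton_mem_nhds (x - y)
  have h1 : Tendsto (fun s => s - y) (𝓝[≠] x) (𝓝 (x - y)) :=
    (continuous_id.sub continuous_const).continuousAt.tendsto.mono_left nhdsWithin_le_nhds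
  filter_upwards [h1.eventually h, self_mem_nhdsWithin] with s hs hs2 hs3
  apply hs
  exact ⟨hs3, fun h => hs2 (by simpa using h)⟩

/-- The map is not locally constant. -/
lemma exists_mnr (hE : IsElliptic L φ) {t : ℂ} {g : ℂ → Fin (m + 2) → ℂ} (hg : IsLift φ t g) :
    ∃ i j, ∀ᶠ s in 𝓝[≠] t, mnr g i j s ≠ 0 := by
  by_contra hc
  push Not at hc
  have h1 : ∀ i j, ∀ᶠ s in 𝓝 t, mnr g i j s = 0 := by
    intro i j
    rcases (analyticAt_mnr hg.1 i j).eventually_eq_zero_or_eventually_ne_zero with h | h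
    · exact h
    · exact absurd h (hc i j)
  have hne : g t ≠ 0 := (hg.2.self_of_nhds).ne_zero
  obtain ⟨j, hj⟩ := Function.ne_iff.1 hne
  have hj' : g t j ≠ 0 := hj
  have h2 : ∀ᶠ s in 𝓝 t, (∀ i, mnr g j i s = 0) ∧ AnalyticAt ℂ g s ∧ g s j ≠ 0 ∧
      IsCoord (φ s) (g s) := by
    refine (eventually_all.2 fun i => h1 j i).and (hg.1.eventually_analyticAt.and
      (((analyticAt_comp hg.1 j).continuousAt.eventually_ne hj').and hg.2))
  obtain ⟨r, hr, hball⟩ := Metric.eventually_nhds_iff_ball.1 h2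
  have h3 : ∀ s ∈ Metric.ball t r, ∀ i, g s i / g s j = g t i / g t j := by
    intro s hs i
    refine Metric.isOpen_ball.is_const_of_deriv_eq_zero (f := fun s => g s i / g s j)
      (convex_ball t r).isPreconnected ?_ ?_ hs (Metric.mem_ball_self hr)
    · intro x hx
      obtain ⟨-, ha, hn, -⟩ := hball x hx
      exact (((deriv_comp_apply ha i).div (deriv_comp_apply ha j) hn).differentiableAt
        ).differentiableWithinAt
    · intro x hx
      obtain ⟨hm, ha, hn, -⟩ := hball x hx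
      have := ((deriv_comp_apply ha i).div (deriv_comp_apply ha j) hn).deriv
      have h4 := hm i
      rw [mnr] at h4
      simp only [Pi.zero_apply]
      have e : (fun s => g s i / g s j) = (fun s => g s i) / (fun s => g s j) := rfl
      rw [e, this]
      rw [div_eq_zero_iff]
      left
      linear_combination h4
  have h4 : ∀ s ∈ Metric.ball t r, φ s = φ t := by
    intro s hs
    obtain ⟨-, -, hn, hco⟩ := hball s hs
    obtain ⟨-, -, hn0, hco0⟩ := hball t (Metric.mem_ball_self hr)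
    refine (hco.eq_iff hco0).2 ⟨g t j / g s j, div_ne_zero hn0 hn, ?_⟩
    ext i
    have := h3 s hs i
    rw [Pi.smul_apply, smul_eq_mul]
    rw [div_eq_div_iff hn hn0] at this
    field_simp
    linear_combination -this
  obtain ⟨S, hS, hinj⟩ := hE.injective
  have h5 : ∀ᶠ s in 𝓝[≠] t, ∀ s' ∈ S, s - s' ∉ L.lattice :=
    (eventually_all_finite hS).2 fun s' _ => ev_notMem L t s'
  obtain ⟨s, ⟨h6, h7⟩, h8⟩ := ((h5.and (ev_notMem L t t)).and
    (mem_nhdsWithin_of_mem_nhds (Metric.ball_mem_nhds t hr) :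
      ∀ᶠ s in 𝓝[≠] t, s ∈ Metric.ball t r)).exists
  apply h7
  have := hinj s h6 t (h4 s h8).symm
  have h9 := L.lattice.neg_mem this
  rwa [neg_sub] at h9

lemma ev_ineq (hE : IsElliptic L φ) (hW : tangentLift φ ⊆ lineNhd m) {t : ℂ}
    {g : ℂ → Fin (m + 2) → ℂ} (hg : IsLift φ t g) :
    ∀ᶠ s in 𝓝[≠] t, ∀ i j, ‖mnr g i j s‖ < 2 * ‖mnr g 0 1 s‖ := by
  obtain ⟨i0, j0, h⟩ := exists_mnr hE hg
  have h1 : ∀ᶠ s in 𝓝 t, IsLift φ s g :=
    hg.1.eventually_analyticAt.and (eventually_eventually_nhds.2 hg.2)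
  filter_upwards [h, h1.filter_mono nhdsWithin_le_nhds] with s hs hs1 i j
  have h2 : LinearIndependent ℂ ![g s, deriv g s] := linInd_iff_minor.2 ⟨i0, j0, hs⟩
  have h3 : IsFrame (φ s, Submodule.span ℂ {g s, deriv g s}) (g s) (deriv g s) :=
    ⟨h2, hs1.2.self_of_nhds, rfl⟩
  have h4 : (φ s, Submodule.span ℂ {g s, deriv g s}) ∈ tangentLift φ :=
    ⟨g s, deriv g s, h3, subset_closure ⟨_, ⟨s, g, hs1, h3⟩, h3⟩⟩
  exact hW h4 _ _ h3 i j

/-- the ratio of two homogeneous coordinates -/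
noncomputable def rat (φ : ℂ → PS (Fin (m + 2))) (j : Fin (m + 2)) (t : ℂ) : ℂ :=
  (φ t).rep j / (φ t).rep 0

lemma rat_eq {t : ℂ} {v : Fin (m + 2) → ℂ} (h : IsCoord (φ t) v) (j : Fin (m + 2)) :
    rat φ j t = v j / v 0 := by
  obtain ⟨c, hc, hv⟩ := (isCoord_rep (φ t)).smul_iff.1 h
  rw [rat, hv]
  simp only [Pi.smul_apply, smul_eq_mul]
  rw [mul_div_mul_left _ _ hc]

lemma ev_rat (hE : IsElliptic L φ) (hW : tangentLift φ ⊆ lineNhd m) {t : ℂ}
    {g : ℂ → Fin (m + 2) → ℂ} (hg : IsLift φ t g) :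
    ∀ᶠ s in 𝓝[≠] t, g s 0 ≠ 0 ∧ mnr g 0 1 s ≠ 0 ∧ (∀ i j, ‖mnr g i j s‖ < 2 * ‖mnr g 0 1 s‖) ∧
      (∀ j, HasDerivAt (rat φ j) (mnr g 0 j s / g s 0 ^ 2) s) ∧ ∀ j, rat φ j s = g s j / g s 0 := by
  have h0 : ∀ᶠ s in 𝓝[≠] t, g s 0 ≠ 0 := by
    rcases (analyticAt_comp hg.1 0).eventually_eq_zero_or_eventually_ne_zero with h | h
    · exfalso
      obtain ⟨s, h1, h2, h3⟩ := ((ev_ineq hE hW hg).and
        (((eventually_eventually_nhds.2 h).and hg.1.eventually_analyticAt).filter_mono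
          nhdsWithin_le_nhds)).exists
      have h4 : g s 0 = 0 := h2.self_of_nhds
      have h5 : deriv g s 0 = 0 := by
        have := (deriv_comp_apply h3 0).deriv
        rw [← this]
        have e : (fun s => g s 0) =ᶠ[𝓝 s] fun _ => 0 := h2
        rw [e.deriv_eq]
        simp
      have := h1 0 1
      simp only [mnr, h4, h5] at this
      simp at this
    · exact h
  have h1 : ∀ᶠ s in 𝓝 t, AnalyticAt ℂ g s ∧ ∀ᶠ x in 𝓝 s, IsCoord (φ x) (g x) :=
    hg.1.eventually_analyticAt.and (eventually_eventually_nhds.2 hg.2)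
  filter_upwards [h0, ev_ineq hE hW hg, h1.filter_mono nhdsWithin_le_nhds] with s h2 h3 h4
  refine ⟨h2, ?_, h3, fun j => ?_, fun j => rat_eq h4.2.self_of_nhds j⟩
  · intro h
    have := h3 0 1
    rw [h] at this
    simp at this
  · have e : rat φ j =ᶠ[𝓝 s] (fun s => g s j) / fun s => g s 0 := by
      filter_upwards [h4.2] with x hx
      exact rat_eq hx j
    have h5 := (deriv_comp_apply h4.1 j).div (deriv_comp_apply h4.1 0) h2
    refine (h5.congr_of_eventuallyEq e).congr_deriv ?_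
    rw [mnr]
    ring

lemma rel (hE : IsElliptic L φ) (hW : tangentLift φ ⊆ lineNhd m) :
    ∃ c k : Fin (m + 2) → ℂ, ∀ t g, IsLift φ t g → ∀ j, g t j = c j * g t 1 - k j * g t 0 := by
  have hmero : ∀ j t, MeromorphicAt (rat φ j) t := by
    intro j t
    obtain ⟨g, hg⟩ := hE.holomorphic t
    have h1 : MeromorphicAt (fun s => g s j / g s 0) t :=
      (analyticAt_comp hg.1 j).meromorphicAt.div (analyticAt_comp hg.1 0).meromorphicAt
    refine h1.congr ?_
    filter_upwards [ev_rat hE hW hg] with s hs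
    exact (hs.2.2.2.2 j).symm
  set H : Fin (m + 2) → ℂ → ℂ := fun j s => deriv (rat φ j) s / deriv (rat φ 1) s with hH
  set K : Fin (m + 2) → ℂ → ℂ := fun j s => rat φ 1 s * H j s - rat φ j s with hK
  have hval : ∀ t g, IsLift φ t g → ∀ᶠ s in 𝓝[≠] t, ∀ j, H j s = mnr g 0 j s / mnr g 0 1 s ∧
      K j s = mnr g 1 j s / mnr g 0 1 s := by
    intro t g hg
    filter_upwards [ev_rat hE hW hg] with s ⟨h1, h2, h3, h4, h5⟩ j
    have h6 : H j s = mnr g 0 j s / mnr g 0 1 s := by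
      simp only [hH]
      rw [(h4 j).deriv, (h4 1).deriv, div_div_div_cancel_right₀ (pow_ne_zero 2 h1)]
    refine ⟨h6, ?_⟩
    simp only [hK]
    rw [h6, h5, h5]
    rw [mnr] at h2
    simp only [mnr]
    field_simp
    ring
  have hHm : ∀ j t, MeromorphicAt (H j) t := fun j t => (hmero j t).deriv.div (hmero 1 t).deriv
  have hKm : ∀ j t, MeromorphicAt (K j) t := fun j t =>
    ((hmero 1 t).mul (hHm j t)).sub (hmero j t)
  have hHb : ∀ j, ∃ c, ∀ t, ∀ᶠ s in 𝓝[≠] t, H j s = c := by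
    intro j
    refine liouville_mero (hHm j) (C := 2) fun t => ?_
    obtain ⟨g, hg⟩ := hE.holomorphic t
    filter_upwards [hval t g hg, ev_rat hE hW hg] with s hs hs2
    rw [(hs j).1, norm_div, div_le_iff₀ (norm_pos_iff.2 hs2.2.1)]
    exact (hs2.2.2.1 0 j).le
  have hKb : ∀ j, ∃ c, ∀ t, ∀ᶠ s in 𝓝[≠] t, K j s = c := by
    intro j
    refine liouville_mero (hKm j) (C := 2) fun t => ?_
    obtain ⟨g, hg⟩ := hE.holomorphic t
    filter_upwards [hval t g hg, ev_rat hE hW hg] with s hs hs2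
    rw [(hs j).2, norm_div, div_le_iff₀ (norm_pos_iff.2 hs2.2.1)]
    exact (hs2.2.2.1 1 j).le
  choose c hc using hHb
  choose k hk using hKb
  refine ⟨c, k, fun t g hg j => ?_⟩
  have h1 : ∀ᶠ s in 𝓝[≠] t, g s j = c j * g s 1 - k j * g s 0 := by
    filter_upwards [hval t g hg, ev_rat hE hW hg, hc j t, hk j t] with s hs hs2 h3 h4
    have h5 := (hs j).1
    have h6 := (hs j).2
    rw [h3, eq_div_iff hs2.2.1] at h5
    rw [h4, eq_div_iff hs2.2.1] at h6
    apply mul_right_cancel₀ hs2.2.1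
    have : g s j * mnr g 0 1 s = g s 1 * mnr g 0 j s - g s 0 * mnr g 1 j s := by
      simp only [mnr]; ring
    rw [this, ← h5, ← h6]
    ring
  have hcont : ∀ i, ContinuousAt (fun s => g s i) t := fun i => (analyticAt_comp hg.1 i).continuousAt
  have h2 : (fun s => g s j) =ᶠ[𝓝 t] fun s => c j * g s 1 - k j * g s 0 :=
    ((hcont j).eventuallyEq_nhds_iff_eventuallyEq_nhdsNE
      (((hcont 1).const_mul _).sub ((hcont 0).const_mul _))).1 h1
  exact h2.eq_of_nhds

/-- There is no elliptic curve whose tangent directions are close to the line. -/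
theorem no_elliptic (hE : IsElliptic L φ) (hW : tangentLift φ ⊆ lineNhd m) : False := by
  obtain ⟨c, k, hrel⟩ := rel hE hW
  have hrel' : ∀ t v, IsCoord (φ t) v → ∀ j, v j = c j * v 1 - k j * v 0 := by
    intro t v hv j
    obtain ⟨g, hg⟩ := hE.holomorphic t
    obtain ⟨a, ha, hgv⟩ := hv.smul_iff.1 hg.2.self_of_nhds
    have := hrel t g hg j
    rw [hgv] at this
    simp only [Pi.smul_apply, smul_eq_mul] at this
    apply mul_left_cancel₀ ha
    rw [this]; ring
  obtain ⟨S, hS, hinj⟩ := hE.injective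
  -- a generic translation
  have h1 : ∀ᶠ h in 𝓝[≠] (0 : ℂ), h ∉ L.lattice ∧ ∀ s ∈ S, ∀ s' ∈ S, h - (s' - s) ∉ L.lattice := by
    refine ((ev_notMem L 0 0).mono fun s hs => by simpa using hs).and ?_
    exact (eventually_all_finite hS).2 fun s _ => (eventually_all_finite hS).2 fun s' _ =>
      ev_notMem L 0 (s' - s)
  obtain ⟨h, hh1, hh2⟩ := h1.exists
  have hne : ∀ t, φ (t + h) ≠ φ t := by
    intro t ht
    by_cases h3 : ∀ s ∈ S, t - s ∉ L.lattice
    · exact hh1 (by simpa using hinj t h3 _ ht)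
    · push Not at h3
      obtain ⟨s, hs, h4⟩ := h3
      by_cases h5 : ∀ s ∈ S, (t + h) - s ∉ L.lattice
      · have := hinj (t + h) h5 t ht.symm
        apply hh1
        have h6 := L.lattice.neg_mem this
        simpa using h6
      · push Not at h5
        obtain ⟨s', hs', h6⟩ := h5
        apply hh2 s hs s' hs'
        have := L.lattice.sub_mem h6 h4
        convert this using 1
        ring
  -- the vectors of coordinates
  have hdet : ∀ t v w, IsCoord (φ t) v → IsCoord (φ (t + h)) w → v 0 * w 1 - v 1 * w 0 ≠ 0 := by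
    intro t v w hv hw hd
    have hv1 : ¬ (v 0 = 0 ∧ v 1 = 0) := fun h0 => hv.ne_zero (by
      ext j
      rw [hrel' t v hv j, h0.1, h0.2]; simp)
    have hw1 : ¬ (w 0 = 0 ∧ w 1 = 0) := fun h0 => hw.ne_zero (by
      ext j
      rw [hrel' _ w hw j, h0.1, h0.2]; simp)
    obtain ⟨a, ha, ha0, ha1⟩ : ∃ a : ℂ, a ≠ 0 ∧ w 0 = a * v 0 ∧ w 1 = a * v 1 := by
      by_cases h0 : v 0 = 0
      · have h1 : v 1 ≠ 0 := fun h1 => hv1 ⟨h0, h1⟩
        have hw0 : w 0 = 0 := by
          have : v 1 * w 0 = 0 := by rw [h0] at hd; linear_combination -hd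
          exact (mul_eq_zero.1 this).resolve_left h1
        refine ⟨w 1 / v 1, ?_, by rw [h0, hw0, mul_zero], by field_simp⟩
        exact div_ne_zero (fun h2 => hw1 ⟨hw0, h2⟩) h1
      · refine ⟨w 0 / v 0, ?_, by field_simp, ?_⟩
        · intro h2
          rcases div_eq_zero_iff.1 h2 with h3 | h3
          · refine hw1 ⟨h3, ?_⟩
            rw [h3] at hd
            have : v 0 * w 1 = 0 := by linear_combination hd
            exact (mul_eq_zero.1 this).resolve_left h0
          · exact h0 h3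
        · field_simp
          linear_combination hd
    apply hne t
    rw [hw.eq_iff hv]
    refine ⟨a⁻¹, inv_ne_zero ha, ?_⟩
    ext j
    rw [Pi.smul_apply, smul_eq_mul, hrel' t v hv j, hrel' _ w hw j, ha0, ha1]
    field_simp
  set R : Fin (m + 2) → Fin (m + 2) → ℂ → ℂ := fun i j s => (φ s).rep i * (φ (s + h)).rep j /
    ((φ s).rep 0 * (φ (s + h)).rep 1 - (φ s).rep 1 * (φ (s + h)).rep 0) with hR
  have hRval : ∀ s v w i j, IsCoord (φ s) v → IsCoord (φ (s + h)) w →
      R i j s = v i * w j / (v 0 * w 1 - v 1 * w 0) := by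
    intro s v w i j hv hw
    obtain ⟨a, ha, hva⟩ := (isCoord_rep (φ s)).smul_iff.1 hv
    obtain ⟨b, hb, hwb⟩ := (isCoord_rep (φ (s + h))).smul_iff.1 hw
    simp only [hR]
    rw [hva, hwb]
    simp only [Pi.smul_apply, smul_eq_mul]
    have e : a * (φ s).rep i * (b * (φ (s + h)).rep j) = (a * b) * ((φ s).rep i *
      (φ (s + h)).rep j) := by ring
    have e' : a * (φ s).rep 0 * (b * (φ (s + h)).rep 1) - a * (φ s).rep 1 * (b *
      (φ (s + h)).rep 0) = (a * b) * ((φ s).rep 0 * (φ (s + h)).rep 1 - (φ s).rep 1 *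
      (φ (s + h)).rep 0) := by ring
    rw [e, e', mul_div_mul_left _ _ (mul_ne_zero ha hb)]
  have hRd : ∀ i j, Differentiable ℂ (R i j) := by
    intro i j t
    obtain ⟨g, hg⟩ := hE.holomorphic t
    obtain ⟨g', hg'⟩ := hE.holomorphic (t + h)
    have h2 : ∀ l, DifferentiableAt ℂ (fun s => g s l) t := fun l =>
      (analyticAt_comp hg.1 l).differentiableAt
    have h3 : ∀ l, DifferentiableAt ℂ (fun s => g' (s + h) l) t := by
      intro l
      have h4 : DifferentiableAt ℂ (fun s => g' s l) (t + h) :=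
        (analyticAt_comp hg'.1 l).differentiableAt
      exact DifferentiableAt.comp (f := fun s => s + h) t h4 (by fun_prop)
    have h4 : ∀ᶠ s in 𝓝 t, IsCoord (φ (s + h)) (g' (s + h)) := by
      have : Tendsto (fun s => s + h) (𝓝 t) (𝓝 (t + h)) :=
        (continuous_id.add continuous_const).tendsto t
      exact this.eventually hg'.2
    have h5 : (fun s => g s i * g' (s + h) j / (g s 0 * g' (s + h) 1 - g s 1 * g' (s + h) 0))
        =ᶠ[𝓝 t] R i j := by
      filter_upwards [hg.2, h4] with s hs hs'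
      exact (hRval s _ _ i j hs hs').symm
    refine DifferentiableAt.congr_of_eventuallyEq ?_ h5.symm
    exact ((h2 i).mul (h3 j)).div (((h2 0).mul (h3 1)).sub ((h2 1).mul (h3 0)))
      (hdet t _ _ hg.2.self_of_nhds hg'.2.self_of_nhds)
  have hRc : ∀ i j s, R i j s = R i j 0 := by
    intro i j s
    refine (hRd i j).apply_eq_apply_of_bounded (IsZLattice.isCompact_range_of_periodic L.lattice _
      (hRd i j).continuous fun z w hw => ?_).isBounded s 0
    have e1 : φ (z + w) = φ z := hE.periodic z w hw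
    have e2 : φ (z + w + h) = φ (z + h) := by
      rw [add_right_comm]; exact hE.periodic (z + h) w hw
    simp only [hR, e1, e2]
  have hD : ∀ s, (φ s).rep 0 * (φ (s + h)).rep 1 - (φ s).rep 1 * (φ (s + h)).rep 0 ≠ 0 :=
    fun s => hdet s _ _ (isCoord_rep _) (isCoord_rep _)
  have hp : ∀ i j s, (φ s).rep i * (φ (s + h)).rep j = R i j 0 *
      ((φ s).rep 0 * (φ (s + h)).rep 1 - (φ s).rep 1 * (φ (s + h)).rep 0) := by
    intro i j s
    rw [← hRc i j s]
    simp only [hR]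
    rw [div_mul_cancel₀ _ (hD s)]
  have hq : ∀ j s, (φ s).rep 1 * R 0 j 0 = (φ s).rep 0 * R 1 j 0 := by
    intro j s
    apply mul_right_cancel₀ (hD s)
    have h2 := hp 0 j s
    have h3 := hp 1 j s
    linear_combination (φ s).rep 0 * h3 - (φ s).rep 1 * h2
  have hsum : R 0 1 0 - R 1 0 0 = 1 := by
    have h2 := hp 0 1 0
    have h3 := hp 1 0 0
    apply mul_right_cancel₀ (hD 0)
    linear_combination h3 - h2
  have hcases : R 0 1 0 ≠ 0 ∨ R 1 0 0 ≠ 0 := by
    by_contra hcon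
    push Not at hcon
    rw [hcon.1, hcon.2] at hsum
    norm_num at hsum
  rcases hcases with h2 | h2
  · apply hD 0
    have h3 := hq 1 0
    have h4 := hq 1 (0 + h)
    apply mul_right_cancel₀ h2
    linear_combination (φ 0).rep 0 * h4 - (φ (0 + h)).rep 0 * h3
  · apply hD 0
    have h3 := hq 0 0
    have h4 := hq 0 (0 + h)
    apply mul_right_cancel₀ h2
    linear_combination (φ 0).rep 1 * h4 - (φ (0 + h)).rep 1 * h3

end Pool.Agent.R868.AEC
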